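import Mathlib

/-!
Project LT (MP_b8862a_ag), block typeBCD: two decreasing sequences with a small scalar product.
-/

set_option linter.unusedSectionVars false
set_option linter.unusedVariables false

open Finset

namespace LT

/-- decreasing, only the last coordinate may be negative -/
def Dec14 {m : ℕ} (a : Fin m → ℤ) : Prop := ∀ i j, i < j → |a j| ≤ a i

theorem Dec14.nonneg {m : ℕ} {a : Fin m → ℤ} (h : Dec14 a) (i : Fin m) (hi : (i : ℕ) + 1 < m) : 0 ≤ a i :=
  (abs_nonneg _).trans (h i ⟨(i : ℕ) + 1, hi⟩ (Nat.lt_succ_self _))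

theorem Dec14.le {m : ℕ} {a : Fin m → ℤ} (h : Dec14 a) {i j : Fin m} (hij : i < j) : |a j| ≤ |a i| :=
  (h i j hij).trans (le_abs_self _)

theorem Dec14.le0 {m : ℕ} {a : Fin m → ℤ} (h : Dec14 a) (h0 : 0 < m) (j : Fin m) : |a j| ≤ |a ⟨0, h0⟩| := by
  rcases Nat.eq_zero_or_pos (j : ℕ) with hj | hj
  · rw [show j = ⟨0, h0⟩ from Fin.ext hj]
  · exact h.le (show (⟨0, h0⟩ : Fin m) < j from hj)

/-- the hypothesis on the last coordinates: either all coordinates are nonnegative, or there are at least four -/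
def Ok14 {m : ℕ} (a b : Fin m → ℤ) : Prop := (∀ i, 0 ≤ a i) ∧ (∀ i, 0 ≤ b i) ∨ 4 ≤ m

theorem sum_last14 {r : ℕ} (f : Fin (r + 2) → ℤ) : ∑ i, f i = ∑ i : Fin r, f i.castSucc.castSucc +
    (f (Fin.last r).castSucc + f (Fin.last (r + 1))) := by
  rw [Fin.sum_univ_castSucc, Fin.sum_univ_castSucc]
  ring

/-- the last two products -/
theorem last_two14 {r : ℕ} {a b : Fin (r + 2) → ℤ} (ha : Dec14 a) (hb : Dec14 b) :
    0 ≤ a (Fin.last r).castSucc * b (Fin.last r).castSucc + a (Fin.last (r + 1)) * b (Fin.last (r + 1)) := by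
  have hlt : (Fin.last r).castSucc < Fin.last (r + 1) := Fin.castSucc_lt_last _
  have h1 := ha _ _ hlt
  have h2 := hb _ _ hlt
  have h3 : |a (Fin.last (r + 1)) * b (Fin.last (r + 1))| ≤ a (Fin.last r).castSucc * b (Fin.last r).castSucc := by
    rw [abs_mul]
    exact mul_le_mul h1 h2 (abs_nonneg _) ((abs_nonneg _).trans h1)
  have h4 := neg_abs_le (a (Fin.last (r + 1)) * b (Fin.last (r + 1)))
  linarith

theorem two_le_sum14 {m : ℕ} {f : Fin m → ℤ} (hf : ∀ i, 0 ≤ f i) {i j : Fin m} (hij : i ≠ j) : f i + f j ≤ ∑ k, f k := by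
  rw [← Finset.sum_pair hij]
  exact Finset.sum_le_sum_of_subset_of_nonneg (Finset.subset_univ _) fun k _ _ => hf k

theorem three_le_sum14 {m : ℕ} {f : Fin m → ℤ} (hf : ∀ i, 0 ≤ f i) {i j k : Fin m} (hij : i ≠ j) (hik : i ≠ k)
    (hjk : j ≠ k) : f i + f j + f k ≤ ∑ l, f l := by
  have h1 : ∑ l ∈ ({i, j, k} : Finset (Fin m)), f l = f i + (f j + f k) := by
    rw [Finset.sum_insert (by simp [hij, hik]), Finset.sum_pair hjk]
  have h2 := Finset.sum_le_sum_of_subset_of_nonneg (Finset.subset_univ ({i, j, k} : Finset (Fin m))) fun k _ _ => hf k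
  rw [h1] at h2
  linarith

theorem lower14 {m : ℕ} (hm : 2 ≤ m) {a b : Fin m → ℤ} (ha : Dec14 a) (hb : Dec14 b) (hok : Ok14 a b) :
    a ⟨0, by omega⟩ * b ⟨0, by omega⟩ + a ⟨1, by omega⟩ * b ⟨1, by omega⟩ ≤ ∑ i, a i * b i := by
  rcases hok with ⟨h1, h2⟩ | h4
  · refine two_le_sum14 (fun i => mul_nonneg (h1 i) (h2 i)) ?_
    intro h
    rw [Fin.mk.injEq] at h
    omega
  · obtain ⟨r, rfl⟩ : ∃ r, m = r + 2 := ⟨m - 2, by omega⟩
    rw [sum_last14]
    have h5 := last_two14 ha hb
    have h6 := two_le_sum14 (f := fun i : Fin r => a i.castSucc.castSucc * b i.castSucc.castSucc) (fun i =>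
      mul_nonneg (ha.nonneg _ (by simp only [Fin.val_castSucc]; have := i.2; omega)) (hb.nonneg _ (by simp only [Fin.val_castSucc]; have := i.2; omega)))
      (i := ⟨0, by omega⟩) (j := ⟨1, by omega⟩) (by
        intro h
        rw [Fin.mk.injEq] at h
        omega)
    have h7 : (⟨0, by omega⟩ : Fin r).castSucc.castSucc = (⟨0, by omega⟩ : Fin (r + 2)) := rfl
    have h8 : (⟨1, by omega⟩ : Fin r).castSucc.castSucc = (⟨1, by omega⟩ : Fin (r + 2)) := rfl
    simp only [h7, h8] at h6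
    linarith

/-- a sequence with first coordinate zero vanishes -/
theorem Dec14.zero {m : ℕ} {a : Fin m → ℤ} (h : Dec14 a) (h0 : 0 < m) (h1 : a ⟨0, h0⟩ = 0) (j : Fin m) : a j = 0 := by
  have h2 := h.le0 h0 j
  rw [h1, abs_zero] at h2
  exact abs_nonpos_iff.1 h2

theorem Dec14.zero1 {m : ℕ} {a : Fin m → ℤ} (h : Dec14 a) (h0 : 1 < m) (h1 : a ⟨1, h0⟩ = 0) (j : Fin m) (hj : (j : ℕ) ≠ 0) :
    a j = 0 := by
  rcases Nat.lt_or_ge 1 (j : ℕ) with h2 | h2
  · have h3 := h.le (show (⟨1, h0⟩ : Fin m) < j from h2)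
    rw [h1, abs_zero] at h3
    exact abs_nonpos_iff.1 h3
  · rw [show j = ⟨1, h0⟩ from Fin.ext (by simp only; omega)]
    exact h1

/-- scalar product one, both integral -/
theorem comb_one14 {m : ℕ} (hm : 2 ≤ m) {a b : Fin m → ℤ} (ha : Dec14 a) (hb : Dec14 b) (hok : Ok14 a b)
    (hs : ∑ i, a i * b i = 1) : a ⟨0, by omega⟩ = 1 ∧ b ⟨0, by omega⟩ = 1 ∧
      ((∀ j : Fin m, (j : ℕ) ≠ 0 → a j = 0) ∨ ∀ j : Fin m, (j : ℕ) ≠ 0 → b j = 0) := by
  have h1 := lower14 hm ha hb hok
  rw [hs] at h1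
  have ha0 := ha.nonneg ⟨0, by omega⟩ (by simp only; omega)
  have hb0 := hb.nonneg ⟨0, by omega⟩ (by simp only; omega)
  have ha1 : a ⟨0, by omega⟩ ≠ 0 := by
    intro h
    rw [Finset.sum_eq_zero fun i _ => by rw [ha.zero (by omega) h i, zero_mul]] at hs
    omega
  have hb1 : b ⟨0, by omega⟩ ≠ 0 := by
    intro h
    rw [Finset.sum_eq_zero fun i _ => by rw [hb.zero (by omega) h i, mul_zero]] at hs
    omega
  -- the second product is not negative
  have h2 : 0 ≤ a ⟨1, by omega⟩ * b ⟨1, by omega⟩ := by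
    rcases hok with ⟨h3, h4⟩ | h4
    · exact mul_nonneg (h3 _) (h4 _)
    · exact mul_nonneg (ha.nonneg _ (by simp only; omega)) (hb.nonneg _ (by simp only; omega))
  have h3 : 1 ≤ a ⟨0, by omega⟩ := by omega
  have h4 : 1 ≤ b ⟨0, by omega⟩ := by omega
  have h5 : a ⟨0, by omega⟩ * b ⟨0, by omega⟩ ≤ 1 := by linarith
  have h6 : a ⟨0, by omega⟩ = 1 := by nlinarith
  have h7 : b ⟨0, by omega⟩ = 1 := by nlinarith
  refine ⟨h6, h7, ?_⟩
  have h8 : a ⟨1, by omega⟩ * b ⟨1, by omega⟩ = 0 := by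
    rw [h6, h7] at h1
    omega
  rcases mul_eq_zero.1 h8 with h9 | h9
  · exact Or.inl fun j hj => ha.zero1 (by omega) h9 j hj
  · exact Or.inr fun j hj => hb.zero1 (by omega) h9 j hj

theorem odd_abs14 {x : ℤ} (h : Odd x) (h1 : |x| ≤ 1) : |x| = 1 := by
  have h2 : x ≠ 0 := by
    rintro rfl
    exact absurd h (by decide)
  have h3 := Int.one_le_abs h2
  omega

/-- scalar product two, the second sequence odd -/
theorem comb_two14 {m : ℕ} (hm : 2 ≤ m) {a b : Fin m → ℤ} (ha : Dec14 a) (hb : Dec14 b) (hok : Ok14 a b)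
    (hodd : ∀ i, Odd (b i)) (hs : ∑ i, a i * b i = 2) : (∀ i, |b i| = 1) ∧
      ((∀ j : Fin m, a j = if (j : ℕ) = 0 then 2 else 0) ∨ (∀ j : Fin m, a j = if (j : ℕ) < 2 then 1 else 0) ∨
        (m = 4 ∧ (∃ i, a i * b i < 0) ∧ ∀ j, |a j| = 1)) := by
  have h1 := lower14 hm ha hb hok
  rw [hs] at h1
  have ha0 := ha.nonneg ⟨0, by omega⟩ (by simp only; omega)
  have hb0 := hb.nonneg ⟨0, by omega⟩ (by simp only; omega)
  have ha1 : a ⟨0, by omega⟩ ≠ 0 := by
    intro h
    rw [Finset.sum_eq_zero fun i _ => by rw [ha.zero (by omega) h i, zero_mul]] at hs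
    omega
  have h2 : 0 ≤ a ⟨1, by omega⟩ ∧ 0 ≤ b ⟨1, by omega⟩ := by
    rcases hok with ⟨h3, h4⟩ | h4
    · exact ⟨h3 _, h4 _⟩
    · exact ⟨ha.nonneg _ (by simp only; omega), hb.nonneg _ (by simp only; omega)⟩
  have h3 : b ⟨0, by omega⟩ = 1 := by
    obtain ⟨k, hk⟩ := hodd ⟨0, by omega⟩
    have h4 : 0 ≤ a ⟨1, by omega⟩ * b ⟨1, by omega⟩ := mul_nonneg h2.1 h2.2
    have h5 : a ⟨0, by omega⟩ * b ⟨0, by omega⟩ ≤ 2 := by linarith
    have h6 : 1 ≤ a ⟨0, by omega⟩ := by omega
    have h7 : 0 ≤ (a ⟨0, by omega⟩ - 1) * b ⟨0, by omega⟩ := mul_nonneg (by omega) hb0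
    have h8 : b ⟨0, by omega⟩ ≤ 2 := by linarith
    omega
  have hb1 : ∀ i, |b i| = 1 := by
    intro i
    refine odd_abs14 (hodd i) ?_
    have h4 := hb.le0 (by omega) i
    rw [h3, abs_one] at h4
    exact h4
  refine ⟨hb1, ?_⟩
  have hb2 : ∀ i : Fin m, (i : ℕ) + 1 < m → b i = 1 := by
    intro i hi
    have h4 := hb.nonneg i hi
    have h5 := hb1 i
    rw [abs_of_nonneg h4] at h5
    exact h5
  have hb3 : b ⟨1, by omega⟩ = 1 := by
    have h5 := hb1 ⟨1, by omega⟩
    rw [abs_of_nonneg h2.2] at h5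
    exact h5
  rw [h3, hb3, mul_one, mul_one] at h1
  rcases (show a ⟨0, by omega⟩ = 2 ∧ a ⟨1, by omega⟩ = 0 ∨ a ⟨0, by omega⟩ = 1 ∧ a ⟨1, by omega⟩ = 0 ∨
    a ⟨0, by omega⟩ = 1 ∧ a ⟨1, by omega⟩ = 1 by omega) with ⟨h4, h5⟩ | ⟨h4, h5⟩ | ⟨h4, h5⟩
  · left
    intro j
    split_ifs with h
    · rw [show j = ⟨0, by omega⟩ from Fin.ext h]
      exact h4
    · exact ha.zero1 (by omega) h5 j h
  · exfalso
    rw [Finset.sum_eq_single ⟨0, by omega⟩] at hs
    · rw [h4, h3] at hs
      omega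
    · intro j _ hj
      rw [ha.zero1 (by omega) h5 j (fun h => hj (Fin.ext h)), zero_mul]
    · intro h
      exact absurd (Finset.mem_univ _) h
  · right
    have hle : ∀ j, |a j| ≤ 1 := by
      intro j
      have h6 := ha.le0 (by omega) j
      rw [h4, abs_one] at h6
      exact h6
    by_cases hneg : ∃ i, a i * b i < 0
    · right
      obtain ⟨i, hi⟩ := hneg
      rcases hok with ⟨h6, h7⟩ | h6
      · exact absurd (mul_nonneg (h6 i) (h7 i)) (not_le.2 hi)
      have hil : (i : ℕ) + 1 = m := by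
        by_contra h
        have h7 : (i : ℕ) + 1 < m := by have := i.2; omega
        exact absurd (mul_nonneg (ha.nonneg i h7) (hb.nonneg i h7)) (not_le.2 hi)
      have hai : a i ≠ 0 := by
        intro h
        rw [h, zero_mul] at hi
        exact lt_irrefl _ hi
      have hall : ∀ j, |a j| = 1 := by
        intro j
        have h7 := hle j
        rcases eq_or_ne j i with h8 | h8
        · rw [h8] at h7 ⊢
          have := Int.one_le_abs hai
          omega
        · have h9 : j < i := by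
            rw [Fin.lt_def]
            have h10 := j.2
            have h11 : (j : ℕ) ≠ i := fun h => h8 (Fin.ext h)
            omega
          have h10 := ha.le h9
          have := Int.one_le_abs hai
          omega
      refine ⟨?_, ⟨i, hi⟩, hall⟩
      -- the sum is `m - 2`
      have hpi : a i * b i = -1 := by
        have h7 : |a i * b i| = 1 := by rw [abs_mul, hall, hb1, mul_one]
        rw [abs_of_neg hi] at h7
        omega
      have h7 : ∀ j : Fin m, a j * b j = if j = i then -1 else 1 := by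
        intro j
        split_ifs with h8
        · rw [h8]
          exact hpi
        · have h9 : (j : ℕ) + 1 < m := by
            have h10 := j.2
            have h11 : (j : ℕ) ≠ i := fun h => h8 (Fin.ext h)
            omega
          have h10 := hall j
          rw [abs_of_nonneg (ha.nonneg j h9)] at h10
          rw [h10, hb2 j h9, mul_one]
      have h8 : ∑ j : Fin m, a j * b j = (m : ℤ) - 2 := by
        rw [← Finset.add_sum_erase _ _ (Finset.mem_univ i), hpi]
        rw [Finset.sum_congr rfl (fun j hj => by rw [h7 j, if_neg (Finset.ne_of_mem_erase hj)] :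
          ∀ j ∈ Finset.univ.erase i, a j * b j = (1 : ℤ))]
        rw [Finset.sum_const, Finset.card_erase_of_mem (Finset.mem_univ _), Finset.card_univ, Fintype.card_fin, nsmul_eq_mul,
          mul_one, Nat.cast_sub (by omega)]
        push_cast
        ring
      omega
    · left
      push Not at hneg
      intro j
      split_ifs with h
      · rcases Nat.eq_zero_or_pos (j : ℕ) with h6 | h6
        · rw [show j = ⟨0, by omega⟩ from Fin.ext h6]
          exact h4
        · rw [show j = ⟨1, by omega⟩ from Fin.ext (by simp only; omega)]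
          exact h5
      · have h6 := three_le_sum14 hneg (i := ⟨0, by omega⟩) (j := ⟨1, by omega⟩) (k := j)
          (by intro h7; rw [Fin.mk.injEq] at h7; omega)
          (by intro h7; rw [← h7] at h; simp only at h; omega)
          (by intro h7; rw [← h7] at h; simp only at h; omega)
        rw [hs, h4, h5, h3, hb3] at h6
        have h7 : a j * b j = 0 := by
          have := hneg j
          omega
        rcases mul_eq_zero.1 h7 with h8 | h8
        · exact h8
        · exfalso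
          have := hb1 j
          rw [h8, abs_zero] at this
          omega

/-- scalar product four, both odd -/
theorem comb_four14 {m : ℕ} (hm : 5 ≤ m) {a b : Fin m → ℤ} (ha : Dec14 a) (hb : Dec14 b)
    (hoa : ∀ i, Odd (a i)) (hob : ∀ i, Odd (b i)) (hs : ∑ i, a i * b i = 4) : m = 6 ∧ ∀ i, |a i| = 1 := by
  have hodd : ∀ i, Odd (a i * b i) := fun i => (hoa i).mul (hob i)
  have hpos : ∀ i : Fin m, (i : ℕ) + 1 < m → 1 ≤ a i * b i := by
    intro i hi
    have h1 := mul_nonneg (ha.nonneg i hi) (hb.nonneg i hi)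
    obtain ⟨k, hk⟩ := hodd i
    omega
  have hpar : Even (m : ℤ) := by
    have h1 : Even (∑ i : Fin m, (a i * b i - 1)) := Finset.even_sum _ fun i _ => (hodd i).sub_odd odd_one
    rw [Finset.sum_sub_distrib, hs, Finset.sum_const, Finset.card_univ, Fintype.card_fin, nsmul_eq_mul, mul_one] at h1
    obtain ⟨k, hk⟩ := h1
    exact ⟨2 - k, by omega⟩
  obtain ⟨r, rfl⟩ : ∃ r, m = r + 2 := ⟨m - 2, by omega⟩
  have h5 := last_two14 ha hb
  rw [sum_last14] at hs
  have h6 : ∀ i : Fin r, 1 ≤ a i.castSucc.castSucc * b i.castSucc.castSucc := by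
    intro i
    refine hpos _ ?_
    simp only [Fin.val_castSucc]
    have := i.2
    omega
  have h7 : ∑ i : Fin r, (a i.castSucc.castSucc * b i.castSucc.castSucc - 1) ≤ 4 - r := by
    rw [Finset.sum_sub_distrib, Finset.sum_const, Finset.card_univ, Fintype.card_fin, nsmul_eq_mul, mul_one]
    linarith
  have h8 : ∀ i : Fin r, 0 ≤ a i.castSucc.castSucc * b i.castSucc.castSucc - 1 := fun i => by
    have := h6 i
    omega
  have h9 : (0 : ℤ) ≤ ∑ i : Fin r, (a i.castSucc.castSucc * b i.castSucc.castSucc - 1) := Finset.sum_nonneg fun i _ => h8 i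
  have h10 : r = 4 := by
    obtain ⟨k, hk⟩ := hpar
    push_cast at hk
    omega
  subst h10
  refine ⟨rfl, ?_⟩
  have h11 := Finset.single_le_sum (fun i _ => h8 i) (Finset.mem_univ (0 : Fin 4))
  have h12 : a ⟨0, by omega⟩ * b ⟨0, by omega⟩ ≤ 1 := by
    have h13 : (0 : Fin 4).castSucc.castSucc = (⟨0, by omega⟩ : Fin (4 + 2)) := rfl
    rw [h13] at h11
    push_cast at h7
    linarith
  have h13 : 1 ≤ a ⟨0, by omega⟩ * b ⟨0, by omega⟩ := hpos ⟨0, by omega⟩ (by simp only; omega)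
  have h14 := ha.nonneg ⟨0, by omega⟩ (by simp only; omega)
  have h15 := hb.nonneg ⟨0, by omega⟩ (by simp only; omega)
  have h18 : b ⟨0, by omega⟩ ≠ 0 := by
    intro h
    rw [h, mul_zero] at h13
    omega
  have h19 : 0 ≤ a ⟨0, by omega⟩ * (b ⟨0, by omega⟩ - 1) := mul_nonneg h14 (by omega)
  have h16 : a ⟨0, by omega⟩ ≤ 1 := by linarith
  intro i
  refine odd_abs14 (hoa i) ?_
  have h17 := ha.le0 (by omega) i
  rw [abs_of_nonneg h14] at h17
  exact h17.trans h16

/-- a decreasing sequence with the first coordinate one: ones, then zeros -/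
theorem ones14 {m : ℕ} (hm : 0 < m) {a : Fin m → ℤ} (ha : Dec14 a) (h1 : |a ⟨0, hm⟩| = 1) :
    ∃ K, 1 ≤ K ∧ K ≤ m ∧ ∀ j : Fin m, |a j| = if (j : ℕ) < K then 1 else 0 := by
  classical
  have hle : ∀ j, |a j| ≤ 1 := fun j => (ha.le0 hm j).trans_eq h1
  let P : ℕ → Prop := fun K => ∀ j : Fin m, K ≤ (j : ℕ) → a j = 0
  have hP : ∃ K, P K := ⟨m, fun j hj => absurd j.2 (not_lt.2 hj)⟩
  refine ⟨Nat.find hP, ?_, ?_, ?_⟩
  · by_contra h
    have h2 : Nat.find hP = 0 := by omega
    have h3 := Nat.find_spec hP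
    rw [h2] at h3
    have h4 := h3 ⟨0, hm⟩ (Nat.zero_le _)
    rw [h4, abs_zero] at h1
    omega
  · exact Nat.find_min' hP fun j hj => absurd j.2 (not_lt.2 hj)
  · intro j
    split_ifs with h
    · have h2 : ¬ P (j : ℕ) := Nat.find_min hP h
      have h3 : ∃ i : Fin m, (j : ℕ) ≤ i ∧ a i ≠ 0 := by
        by_contra hcon
        push Not at hcon
        exact h2 hcon
      obtain ⟨i, hi, hai⟩ := h3
      have h4 := Int.one_le_abs hai
      have h5 := hle j
      rcases Nat.eq_or_lt_of_le hi with h6 | h6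
      · rw [show j = i from Fin.ext h6] at h5 ⊢
        omega
      · have h7 := ha.le (show j < i from h6)
        omega
    · rw [Nat.find_spec hP j (not_lt.1 h), abs_zero]

end LT
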