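import Pool.Agent.Helper14.LT.Van

/-!
Project LT (MP_b8862a_ag): blocks dimB, dimC, dimD, dim2. Weyl's dimension formula for the fundamental weights of the
types `B`, `C`, `D` and for twice the first one.
-/

set_option linter.unusedSectionVars false
set_option linter.unusedVariables false

open Finset PF TF PW

namespace LT

theorem Pd_cast14 (d m : ℕ) (x : Fin m → ℤ) : ((Pd d m x : ℤ) : ℝ) = PdR d m (fun i => (x i : ℝ)) := by
  unfold Pd PdR
  split_ifs <;> push_cast <;> rfl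

theorem PdR_pos14 (d m : ℕ) : 0 < PdR d m 0 := by
  unfold PdR
  apply mul_pos
  · refine Finset.prod_pos fun i _ => Finset.prod_pos fun j hj => ?_
    have h1 : (Vd d m j : ℝ) < Vd d m i := by exact_mod_cast Vd_lt43 d m (Finset.mem_Ioi.1 hj)
    have h2 : (0 : ℝ) ≤ Vd d m j := by exact_mod_cast Vd_nonneg43 d m j
    simp only [Pi.zero_apply, mul_zero, zero_add]
    nlinarith
  · by_cases hd0 : d = 0
    · rw [if_pos hd0]
      exact one_pos
    · rw [if_neg hd0]
      refine Finset.prod_pos fun i _ => ?_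
      simp only [Pi.zero_apply, mul_zero, zero_add]
      have h1 : 0 < Vd d m i := by
        unfold Vd
        have := i.2
        omega
      exact_mod_cast h1

theorem fac_one14 (K r : ℕ) : fac14 1 (K + r) K * (2 * r + 1) = 4 ^ (K + r) * (K.factorial * (K + 2 * r + 1).factorial) := by
  unfold fac14
  have h1 := Nat.factorial_mul_descFactorial (show r ≤ 2 * r by omega)
  have h2 := Nat.factorial_mul_descFactorial (show K ≤ K + 2 * r + 1 by omega)
  rw [show 2 * r - r = r by omega] at h1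
  rw [show K + 2 * r + 1 - K = 2 * r + 1 by omega, Nat.factorial_succ] at h2
  rw [show K + r - K = r by omega, show 2 * (K + r) + 1 - K = K + 2 * r + 1 by omega,
    show 2 * (K + r) + 1 - 2 * K - 1 = 2 * r by omega, ← h2, ← h1]
  ring

theorem fac_two14 (K r : ℕ) : fac14 2 (K + r) K * (2 * r + 2) * (r + 1) =
    4 ^ (K + r) * (K.factorial * (K + 2 * r + 2).factorial) := by
  unfold fac14
  have h1 := Nat.factorial_mul_descFactorial (show r ≤ 2 * r + 1 by omega)
  have h2 := Nat.factorial_mul_descFactorial (show K ≤ K + 2 * r + 2 by omega)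
  rw [show 2 * r + 1 - r = r + 1 by omega, Nat.factorial_succ r] at h1
  rw [show K + 2 * r + 2 - K = 2 * r + 1 + 1 by omega, Nat.factorial_succ (2 * r + 1)] at h2
  rw [show K + r - K = r by omega, show 2 * (K + r) + 2 - K = K + 2 * r + 2 by omega,
    show 2 * (K + r) + 2 - 2 * K - 1 = 2 * r + 1 by omega, ← h2, ← h1]
  ring

theorem fac_zero14 (K r : ℕ) (hr : 1 ≤ r) : 2 * fac14 0 (K + r) K = 4 ^ (K + r) * (K.factorial * (K + 2 * r).factorial) := by
  unfold fac14
  obtain ⟨q, rfl⟩ : ∃ q, r = q + 1 := ⟨r - 1, by omega⟩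
  have h1 := Nat.factorial_mul_descFactorial (show q + 1 ≤ 2 * q + 1 by omega)
  have h2 := Nat.factorial_mul_descFactorial (show K ≤ K + 2 * (q + 1) by omega)
  rw [show 2 * q + 1 - (q + 1) = q by omega] at h1
  rw [show K + 2 * (q + 1) - K = 2 * q + 1 + 1 by omega, Nat.factorial_succ (2 * q + 1)] at h2
  rw [show K + (q + 1) - K = q + 1 by omega, show 2 * (K + (q + 1)) + 0 - K = K + 2 * (q + 1) by omega,
    show 2 * (K + (q + 1)) + 0 - 2 * K - 1 = 2 * q + 1 by omega, ← h2, ← h1, Nat.factorial_succ q]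
  ring

theorem fac_full14 (m : ℕ) : fac14 0 m m = 4 ^ m * (m.factorial * m.factorial) := by
  unfold fac14
  rw [show 2 * m + 0 - m = m by omega, Nat.sub_self, Nat.descFactorial_self, Nat.factorial_zero, Nat.descFactorial_zero]
  ring

theorem dimB_box14 {m K n : ℕ} (hK : K ≤ m) (h : (n : ℝ) * PdR 1 m 0 = PdR 1 m (box14 m K)) :
    n = (2 * m + 1).choose K := by
  obtain ⟨r, rfl⟩ : ∃ r, m = K + r := ⟨m - K, by omega⟩
  have h1 := dim_box14 hK h (PdR_pos14 1 (K + r))
  rw [if_neg one_ne_zero, if_neg one_ne_zero] at h1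
  have h2 : n * (fac14 1 (K + r) K * (2 * r + 1)) = fac14 1 (0 + (K + r)) 0 * (2 * (K + r) + 1) := by
    have : ((n * (fac14 1 (K + r) K * (2 * r + 1)) : ℕ) : ℝ) = ((fac14 1 (0 + (K + r)) 0 * (2 * (K + r) + 1) : ℕ) : ℝ) := by
      push_cast at h1 ⊢
      rw [zero_add]
      rw [← h1]
      ring
    exact_mod_cast this
  rw [fac_one14, fac_one14, zero_add, zero_add, Nat.factorial_zero, one_mul] at h2
  have h3 := Nat.choose_mul_factorial_mul_factorial (show K ≤ 2 * (K + r) + 1 by omega)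
  rw [show 2 * (K + r) + 1 - K = K + 2 * r + 1 by omega] at h3
  have h4 : n * (K.factorial * (K + 2 * r + 1).factorial) =
      (2 * (K + r) + 1).choose K * (K.factorial * (K + 2 * r + 1).factorial) := by
    refine Nat.eq_of_mul_eq_mul_left (show 0 < 4 ^ (K + r) by positivity) ?_
    rw [← mul_assoc ((2 * (K + r) + 1).choose K), h3, ← h2]
    ring
  exact Nat.eq_of_mul_eq_mul_right (by positivity) h4

theorem dimC_box14 {m K n : ℕ} (hK : K ≤ m) (h : (n : ℝ) * PdR 2 m 0 = PdR 2 m (box14 m K)) :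
    n * (m + 1) = (m + 1 - K) * (2 * m + 2).choose K := by
  obtain ⟨r, rfl⟩ : ∃ r, m = K + r := ⟨m - K, by omega⟩
  have h1 := dim_box14 hK h (PdR_pos14 2 (K + r))
  rw [if_neg two_ne_zero, if_neg two_ne_zero] at h1
  have h2 : n * (K + r + 1) * (fac14 2 (K + r) K * (2 * r + 2) * (r + 1)) =
      (r + 1) * (fac14 2 (0 + (K + r)) 0 * (2 * (K + r) + 2) * (K + r + 1)) := by
    have : ((n * (K + r + 1) * (fac14 2 (K + r) K * (2 * r + 2) * (r + 1)) : ℕ) : ℝ) =
        (((r + 1) * (fac14 2 (0 + (K + r)) 0 * (2 * (K + r) + 2) * (K + r + 1)) : ℕ) : ℝ) := by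
      push_cast at h1 ⊢
      rw [zero_add]
      linear_combination ((K : ℝ) + r + 1) * (r + 1) * h1
    exact_mod_cast this
  rw [fac_two14, fac_two14, zero_add, zero_add, Nat.factorial_zero, one_mul] at h2
  have h3 := Nat.choose_mul_factorial_mul_factorial (show K ≤ 2 * (K + r) + 2 by omega)
  rw [show 2 * (K + r) + 2 - K = K + 2 * r + 2 by omega] at h3
  rw [show K + r + 1 - K = r + 1 by omega]
  have h4 : n * (K + r + 1) * (K.factorial * (K + 2 * r + 2).factorial) =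
      (r + 1) * (2 * (K + r) + 2).choose K * (K.factorial * (K + 2 * r + 2).factorial) := by
    refine Nat.eq_of_mul_eq_mul_left (show 0 < 4 ^ (K + r) by positivity) ?_
    have h5 : 4 ^ (K + r) * ((r + 1) * (2 * (K + r) + 2).choose K * (K.factorial * (K + 2 * r + 2).factorial)) =
        (r + 1) * (4 ^ (K + r) * ((2 * (K + r) + 2).choose K * K.factorial * (K + 2 * r + 2).factorial)) := by ring
    rw [h5, h3, ← h2]
    ring
  exact Nat.eq_of_mul_eq_mul_right (by positivity) h4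

theorem dimD_box14 {m K n : ℕ} (hK : K ≤ m) (hm : 1 ≤ m) (h : (n : ℝ) * PdR 0 m 0 = PdR 0 m (box14 m K)) :
    (if K = m then 2 * n else n) = (2 * m).choose K := by
  have h1 := dim_box14 hK h (PdR_pos14 0 m)
  rw [if_pos rfl, if_pos rfl, mul_one, mul_one] at h1
  have h2 : n * fac14 0 m K = fac14 0 m 0 := by exact_mod_cast h1
  have h3 := fac_zero14 0 m hm
  rw [zero_add, zero_add, Nat.factorial_zero, one_mul] at h3
  rcases Nat.lt_or_ge K m with hlt | hge
  · rw [if_neg hlt.ne]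
    obtain ⟨r, rfl⟩ : ∃ r, m = K + r := ⟨m - K, by omega⟩
    have h4 := fac_zero14 K r (by omega)
    have h5 := Nat.choose_mul_factorial_mul_factorial (show K ≤ 2 * (K + r) by omega)
    rw [show 2 * (K + r) - K = K + 2 * r by omega] at h5
    have h6 : n * (K.factorial * (K + 2 * r).factorial) = (2 * (K + r)).choose K * (K.factorial * (K + 2 * r).factorial) := by
      refine Nat.eq_of_mul_eq_mul_left (show 0 < 4 ^ (K + r) by positivity) ?_
      rw [← mul_assoc ((2 * (K + r)).choose K), h5]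
      calc 4 ^ (K + r) * (n * (K.factorial * (K + 2 * r).factorial)) =
          n * (4 ^ (K + r) * (K.factorial * (K + 2 * r).factorial)) := by ring
        _ = 2 * (n * fac14 0 (K + r) K) := by rw [← h4]; ring
        _ = _ := by rw [h2, h3]
    exact Nat.eq_of_mul_eq_mul_right (by positivity) h6
  · obtain rfl : K = m := le_antisymm hK hge
    rw [if_pos rfl]
    have h4 := fac_full14 K
    have h5 := Nat.choose_mul_factorial_mul_factorial (show K ≤ 2 * K by omega)
    rw [show 2 * K - K = K by omega] at h5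
    have h6 : 2 * n * (K.factorial * K.factorial) = (2 * K).choose K * (K.factorial * K.factorial) := by
      refine Nat.eq_of_mul_eq_mul_left (show 0 < 4 ^ K by positivity) ?_
      rw [← mul_assoc ((2 * K).choose K), h5]
      calc 4 ^ K * (2 * n * (K.factorial * K.factorial)) = 2 * (n * (4 ^ K * (K.factorial * K.factorial))) := by ring
        _ = 2 * (n * fac14 0 K K) := by rw [← h4]
        _ = _ := by rw [h2, h3]
    exact Nat.eq_of_mul_eq_mul_right (by positivity) h6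

/-- the ballot number as a difference of binomial coefficients -/
theorem ballot14 {m i n : ℕ} (hi : i + 2 ≤ m) (h : n * (m + 1) = (m + 1 - (i + 2)) * (2 * m + 2).choose (i + 2)) :
    n + (2 * m).choose i = (2 * m).choose (i + 2) := by
  obtain ⟨r, rfl⟩ : ∃ r, m = i + 2 + r := ⟨m - (i + 2), by omega⟩
  rw [show i + 2 + r + 1 - (i + 2) = r + 1 by omega] at h
  have h1 := Nat.choose_mul_factorial_mul_factorial (show i + 2 ≤ 2 * (i + 2 + r) + 2 by omega)
  have h2 := Nat.choose_mul_factorial_mul_factorial (show i + 2 ≤ 2 * (i + 2 + r) by omega)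
  have h3 := Nat.choose_mul_factorial_mul_factorial (show i ≤ 2 * (i + 2 + r) by omega)
  rw [show 2 * (i + 2 + r) + 2 - (i + 2) = (i + 2 + 2 * r + 1) + 1 by omega, Nat.factorial_succ (2 * (i + 2 + r) + 1),
    Nat.factorial_succ (2 * (i + 2 + r))] at h1
  rw [show 2 * (i + 2 + r) - (i + 2) = i + 2 + 2 * r by omega] at h2
  rw [show 2 * (i + 2 + r) - i = (i + 2 + 2 * r + 1) + 1 by omega] at h3
  rw [Nat.factorial_succ, Nat.factorial_succ] at h1 h3
  rw [Nat.factorial_succ, Nat.factorial_succ] at h1 h2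
  set F := (2 * (i + 2 + r)).factorial with hF
  set A := i.factorial with hA
  set B := (i + 2 + 2 * r).factorial with hB
  have hA0 : 0 < A := Nat.factorial_pos _
  have hB0 : 0 < B := Nat.factorial_pos _
  -- multiply by the common denominator
  have hpos : 0 < (i + 1) * (i + 2) * A * ((i + 2 + 2 * r + 1) * (i + 2 + 2 * r + 2) * B) * (i + 2 + r + 1) := by positivity
  refine Nat.eq_of_mul_eq_mul_right hpos ?_
  zify at h h1 h2 h3 ⊢
  linear_combination ((i : ℤ) + 1) * (i + 2) * A * ((i + 2 + 2 * r + 1) * (i + 2 + 2 * r + 2) * B) * h +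
    ((r : ℤ) + 1) * h1 - ((i : ℤ) + 2 + 2 * r + 1) * (i + 2 + 2 * r + 2) * (i + 2 + r + 1) * h2 +
    ((i : ℤ) + 1) * (i + 2) * (i + 2 + r + 1) * h3

theorem box_cast14 {m K : ℕ} (x : Fin m → ℤ) (hx : ∀ j : Fin m, x j = if (j : ℕ) < K then 1 else 0) :
    (fun i => (x i : ℝ)) = box14 m K := by
  funext j
  rw [hx j]
  unfold box14
  split_ifs <;> simp

/-- **BLOCK DB** -/
theorem dimB {m i n : ℕ} (hi : i ≤ m) (x : Fin m → ℤ) (hx : ∀ j : Fin m, x j = if (j : ℕ) < i then 1 else 0)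
    (h : n * Pd 1 m 0 = Pd 1 m x) : n = (2 * m + 1).choose i := by
  refine dimB_box14 hi ?_
  have h1 : (((n * Pd 1 m 0 : ℤ)) : ℝ) = ((Pd 1 m x : ℤ) : ℝ) := by rw [h]
  rw [Int.cast_mul, Pd_cast14, Pd_cast14, box_cast14 x hx] at h1
  rw [← h1]
  congr 2
  funext j
  simp

/-- **BLOCK DC** -/
theorem dimC {m i n : ℕ} (hi : i + 2 ≤ m) (x : Fin m → ℤ) (hx : ∀ j : Fin m, x j = if (j : ℕ) < i + 2 then 1 else 0)
    (h : n * Pd 2 m 0 = Pd 2 m x) : n + (2 * m).choose i = (2 * m).choose (i + 2) := by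
  refine ballot14 hi (dimC_box14 hi ?_)
  have h1 : (((n * Pd 2 m 0 : ℤ)) : ℝ) = ((Pd 2 m x : ℤ) : ℝ) := by rw [h]
  rw [Int.cast_mul, Pd_cast14, Pd_cast14, box_cast14 x hx] at h1
  rw [← h1]
  congr 2
  funext j
  simp

/-- only the last coordinate may be negative -/
theorem PdR_abs14 {m K : ℕ} (x : Fin m → ℝ) (hx : ∀ j : Fin m, |x j| = if (j : ℕ) < K then 1 else 0)
    (hp : ∀ j : Fin m, (j : ℕ) + 1 < m → 0 ≤ x j) : PdR 0 m x = PdR 0 m (box14 m K) := by
  have h1 : ∀ j : Fin m, (2 * x j + (Vd 0 m j : ℝ)) ^ 2 = (2 * box14 m K j + (Vd 0 m j : ℝ)) ^ 2 := by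
    intro j
    by_cases hj : (j : ℕ) + 1 < m
    · rw [show x j = box14 m K j by
        unfold box14
        rw [← hx j, abs_of_nonneg (hp j hj)]]
    · have hj2 := j.2
      have h2 : Vd 0 m j = 0 := by
        unfold Vd
        omega
      rw [h2, Int.cast_zero, add_zero, add_zero, mul_pow, mul_pow, ← sq_abs (x j), hx j]
      unfold box14
      split_ifs <;> norm_num
  unfold PdR
  rw [if_pos rfl, if_pos rfl, mul_one, mul_one]
  simp only [h1]

/-- **BLOCK DD**, the coordinates but the last one are not negative -/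
theorem dimD {m i n : ℕ} (hi : i ≤ m) (h0 : 1 ≤ m) (x : Fin m → ℤ) (hx : ∀ j : Fin m, |x j| = if (j : ℕ) < i then 1 else 0)
    (hp : ∀ j : Fin m, (j : ℕ) + 1 < m → 0 ≤ x j)
    (h : n * Pd 0 m 0 = Pd 0 m x) : (if i = m then 2 * n else n) = (2 * m).choose i := by
  refine dimD_box14 hi h0 ?_
  have h1 : (((n * Pd 0 m 0 : ℤ)) : ℝ) = ((Pd 0 m x : ℤ) : ℝ) := by rw [h]
  rw [Int.cast_mul, Pd_cast14, Pd_cast14, PdR_abs14 (K := i) (fun i => (x i : ℝ)) (by
    intro j
    have h2 := hx j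
    rw [← Int.cast_abs, h2]
    split_ifs <;> simp) (fun j hj => by exact_mod_cast hp j hj)] at h1
  rw [← h1]
  congr 2
  funext j
  simp

/-- the first factor of Weyl's product for the weight with the coordinates `b, 0, …, 0` -/
theorem prod_first14 (d r b : ℕ) :
    (∏ j : Fin r, ((2 * (b : ℝ) + (2 * r + d)) ^ 2 - (2 * r + d - 2 * ((j.val : ℝ) + 1)) ^ 2) : ℝ) * (b.factorial * (r + d + b - 1).factorial) =
      4 ^ r * ((b + r).factorial * (2 * r + d + b - 1).factorial) := by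
  have h1 : (∏ j : Fin r, ((2 * (b : ℝ) + (2 * r + d)) ^ 2 - (2 * r + d - 2 * ((j.val : ℝ) + 1)) ^ 2) : ℝ) =
      ((4 ^ r * ((b + 1).ascFactorial r * (2 * r + d + b - 1).descFactorial r) : ℕ) : ℝ) := by
    rw [← prod_range (fun j => ((2 * (b : ℝ) + (2 * r + d)) ^ 2 - (2 * r + d - 2 * ((j : ℝ) + 1)) ^ 2 : ℝ))]
    rw [Nat.ascFactorial_eq_prod_range, Nat.descFactorial_eq_prod_range, ← prod_mul_distrib]
    have : (4 : ℕ) ^ r = ∏ _j ∈ range r, 4 := by rw [prod_const, card_range]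
    rw [this, ← prod_mul_distrib, Nat.cast_prod]
    refine prod_congr rfl fun j hj => ?_
    have hj' := mem_range.1 hj
    have h5 : 2 * r + d + b - 1 - j = 2 * r + d + b - (j + 1) := by omega
    rw [h5, Nat.cast_mul, Nat.cast_mul, Nat.cast_sub (by omega)]
    push_cast
    ring
  rw [h1]
  have h2 := Nat.factorial_mul_ascFactorial b r
  rcases Nat.eq_zero_or_pos r with hr | hr
  · subst hr
    simp
  · have h3 := Nat.factorial_mul_descFactorial (show r ≤ 2 * r + d + b - 1 by omega)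
    rw [show 2 * r + d + b - 1 - r = r + d + b - 1 by omega] at h3
    rw [← h2, ← h3]
    push_cast
    ring

/-- **BLOCK D2**: `l = 2 e_1` -/
theorem dim2 {m n d : ℕ} (hm : 2 ≤ m) (hd : d = 0 ∨ d = 2) (x : Fin m → ℤ) (hx : ∀ j : Fin m, x j = if (j : ℕ) = 0 then 2 else 0)
    (h : n * Pd d m 0 = Pd d m x) : n = if d = 0 then (m + 1) * (2 * m - 1) else m * (2 * m + 1) := by
  obtain ⟨r, rfl⟩ : ∃ r, m = r + 1 := ⟨m - 1, by omega⟩
  have hr : 1 ≤ r := by omega
  have h1 : (((n * Pd d (r + 1) 0 : ℤ)) : ℝ) = ((Pd d (r + 1) x : ℤ) : ℝ) := by rw [h]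
  rw [Int.cast_mul, Pd_cast14, Pd_cast14] at h1
  have hx0 : x 0 = 2 := by rw [hx 0]; simp
  have hxs : ∀ j : Fin r, x j.succ = 0 := by
    intro j
    rw [hx j.succ, if_neg (by simp)]
  have hV0 : (Vd d (r + 1) (0 : Fin (r + 1)) : ℝ) = 2 * r + d := by
    unfold Vd
    push_cast
    simp
  have hVs : ∀ j : Fin r, (Vd d (r + 1) j.succ : ℝ) = 2 * r + d - 2 * ((j.val : ℝ) + 1) := by
    intro j
    unfold Vd
    push_cast
    simp only [Fin.val_succ]
    push_cast
    ring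
  -- split off the first factor
  have hsplit : ∀ (b : ℕ) (w : Fin (r + 1) → ℝ), w 0 = b → (∀ j : Fin r, w j.succ = 0) →
      PdR d (r + 1) w = ((∏ j : Fin r, ((2 * (b : ℝ) + (2 * r + d)) ^ 2 - (2 * r + d - 2 * ((j.val : ℝ) + 1)) ^ 2) : ℝ) *
        (if d = 0 then 1 else (2 * (b : ℝ) + (2 * r + d)))) *
        ((∏ i : Fin r, ∏ j ∈ Finset.Ioi i, ((Vd d (r + 1) i.succ : ℝ) ^ 2 - (Vd d (r + 1) j.succ : ℝ) ^ 2)) *
          (if d = 0 then 1 else ∏ i : Fin r, (Vd d (r + 1) i.succ : ℝ))) := by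
    intro b w hw0 hws
    unfold PdR
    rw [Fin.prod_univ_succ, Fin.prod_univ_succ (fun i => (2 * w i + (Vd d (r + 1) i : ℝ)))]
    rw [Fin.prod_Ioi_zero]
    simp only [Fin.prod_Ioi_succ, hw0, hws, mul_zero, zero_add, hV0]
    rw [Finset.prod_congr rfl (fun j _ => by rw [hVs j] : ∀ j ∈ (Finset.univ : Finset (Fin r)),
      ((2 * (b : ℝ) + (2 * r + d)) ^ 2 - (Vd d (r + 1) j.succ : ℝ) ^ 2) =
      ((2 * (b : ℝ) + (2 * r + d)) ^ 2 - (2 * r + d - 2 * ((j.val : ℝ) + 1)) ^ 2))]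
    by_cases hd0 : d = 0
    · rw [if_pos hd0, if_pos hd0, if_pos hd0]
      ring
    · rw [if_neg hd0, if_neg hd0, if_neg hd0]
      ring
  have h2 := hsplit 0 0 (by simp) (fun j => rfl)
  have h3 := hsplit 2 (fun i => (x i : ℝ)) (by rw [hx0]; norm_num) (fun j => by rw [hxs]; norm_num)
  have h0 : (fun i => ((0 : Fin (r + 1) → ℤ) i : ℝ)) = (0 : Fin (r + 1) → ℝ) := by
    funext j
    simp
  rw [h0, h3] at h1
  have hpos := PdR_pos14 d (r + 1)
  rw [h2] at h1 hpos
  set R := ((∏ i : Fin r, ∏ j ∈ Finset.Ioi i, ((Vd d (r + 1) i.succ : ℝ) ^ 2 - (Vd d (r + 1) j.succ : ℝ) ^ 2)) *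
          (if d = 0 then 1 else ∏ i : Fin r, (Vd d (r + 1) i.succ : ℝ))) with hR
  have hR0 : R ≠ 0 := right_ne_zero_of_mul hpos.ne'
  rw [← mul_assoc] at h1
  have h4 := mul_right_cancel₀ hR0 h1
  have h5 := prod_first14 d r 0
  have h6 := prod_first14 d r 2
  set P0 := (∏ j : Fin r, ((2 * ((0 : ℕ) : ℝ) + (2 * r + d)) ^ 2 - (2 * r + d - 2 * ((j.val : ℝ) + 1)) ^ 2) : ℝ) with hP0
  set P2 := (∏ j : Fin r, ((2 * ((2 : ℕ) : ℝ) + (2 * r + d)) ^ 2 - (2 * r + d - 2 * ((j.val : ℝ) + 1)) ^ 2) : ℝ) with hP2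
  have h4r : (0 : ℝ) < 4 ^ r := by positivity
  rcases hd with rfl | rfl
  · rw [if_pos rfl, if_pos rfl, mul_one, mul_one] at h4
    rw [if_pos rfl]
    obtain ⟨q, rfl⟩ : ∃ q, r = q + 1 := ⟨r - 1, by omega⟩
    rw [show 0 + (q + 1) = q + 1 by omega, show q + 1 + 0 + 0 - 1 = q by omega,
      show 2 * (q + 1) + 0 + 0 - 1 = 2 * q + 1 by omega] at h5
    rw [show 2 + (q + 1) = q + 1 + 1 + 1 by omega, show q + 1 + 0 + 2 - 1 = q + 1 + 1 by omega,
      show 2 * (q + 1) + 0 + 2 - 1 = 2 * q + 1 + 1 + 1 by omega] at h6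
    simp only [Nat.factorial_succ, Nat.factorial_zero, Nat.factorial_two] at h5 h6
    set A := q.factorial with hA
    set B := (2 * q).factorial with hB
    have hA0 : (0 : ℝ) < A := by exact_mod_cast Nat.factorial_pos _
    have hB0 : (0 : ℝ) < B := by exact_mod_cast Nat.factorial_pos _
    have h7 : (n : ℝ) = (q + 1 + 1 + 1) * (2 * q + 3) := by
      push_cast at h5 h6
      have h4' : (n : ℝ) * P0 = P2 := by exact_mod_cast h4
      have h8 : (n : ℝ) * (4 ^ (q + 1) * ((q + 1) * A * ((2 * q + 1) * B))) * ((1 + 1) * (q + 1) * (q + 1 + 1)) =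
          4 ^ (q + 1) * ((q + 1 + 1 + 1) * ((q + 1 + 1) * ((q + 1) * A)) * ((2 * q + 1 + 1 + 1) * ((2 * q + 1 + 1) * ((2 * q + 1) * B)))) := by
        linear_combination -(n : ℝ) * ((1 + 1) * (q + 1) * (q + 1 + 1)) * h5 + ((1 + 1) * (q + 1) * (q + 1 + 1)) * A * h4' + h6
      have h9 : (4 : ℝ) ^ (q + 1) * ((q + 1) * A * ((2 * q + 1) * B)) * ((1 + 1) * (q + 1) * (q + 1 + 1)) ≠ 0 := by positivity
      refine mul_right_cancel₀ h9 ?_
      linear_combination h8
    have h8 : ((n : ℕ) : ℝ) = (((q + 1 + 1 + 1) * (2 * q + 3) : ℕ) : ℝ) := by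
      push_cast
      exact h7
    rw [show 2 * (q + 1 + 1) - 1 = 2 * q + 3 by omega]
    exact_mod_cast h8
  · rw [if_neg two_ne_zero, if_neg two_ne_zero] at h4
    rw [if_neg two_ne_zero]
    rw [show 0 + r = r by omega, show r + 2 + 0 - 1 = r + 1 by omega,
      show 2 * r + 2 + 0 - 1 = 2 * r + 1 by omega] at h5
    rw [show 2 + r = r + 1 + 1 by omega, show r + 2 + 2 - 1 = r + 1 + 1 + 1 by omega,
      show 2 * r + 2 + 2 - 1 = 2 * r + 1 + 1 + 1 by omega] at h6
    simp only [Nat.factorial_succ, Nat.factorial_zero, Nat.factorial_two] at h5 h6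
    set A := r.factorial with hA
    set B := (2 * r).factorial with hB
    have hA0 : (0 : ℝ) < A := by exact_mod_cast Nat.factorial_pos _
    have hB0 : (0 : ℝ) < B := by exact_mod_cast Nat.factorial_pos _
    have h7 : (n : ℝ) = (r + 1) * (2 * (r + 1) + 1) := by
      push_cast at h4 h5 h6
      have h8 : (n : ℝ) * ((2 * r + 2) * (4 ^ r * (A * ((2 * r + 1) * B)))) * ((1 + 1) * (r + 1 + 1) * (r + 1 + 1 + 1)) =
          (2 * 2 + (2 * r + 2)) * (4 ^ r * ((r + 1 + 1) * ((r + 1) * A) * ((2 * r + 1 + 1 + 1) * ((2 * r + 1 + 1) * ((2 * r + 1) * B))))) := by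
        linear_combination -(n : ℝ) * (2 * r + 2) * ((1 + 1) * (r + 1 + 1) * (r + 1 + 1 + 1)) * h5 + (2 * 2 + (2 * r + 2)) * h6 +
          (2 : ℝ) * (r + 1 + 1 + 1) * (r + 1 + 1) * ((r + 1) * A) * h4
      have h9 : ((2 * (r : ℝ) + 2) * (4 ^ r * (A * ((2 * r + 1) * B)))) * ((1 + 1) * (r + 1 + 1) * (r + 1 + 1 + 1)) ≠ 0 := by positivity
      refine mul_right_cancel₀ h9 ?_
      linear_combination h8
    have h8 : ((n : ℕ) : ℝ) = (((r + 1) * (2 * (r + 1) + 1) : ℕ) : ℝ) := by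
      push_cast
      exact h7
    exact_mod_cast h8

end LT
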