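import Pool.Agent.Helper81.LT.Defs
import Pool.Agent.Helper43.PW.DimR
import Pool.Agent.Helper27.TF.BcdMain
import Pool.Agent.Helper14.LT.Comb

/-!
Project LT (MP_b8862a_ag), block typeBCD: ordered frames, the parity, the Casimir constants.
-/

set_option linter.unusedSectionVars false
set_option linter.unusedVariables false

open Module PF TF PW AG

namespace LT

section
variable {E : Type*} [NormedAddCommGroup E] [InnerProductSpace ℝ E] {Φ X : Finset E} {n s m d : ℕ} {l y v : E} {c : ℝ}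
  {e : Fin m → E}

/-- the frame is ordered by `v` -/
structure Srt14 (m d : ℕ) (e : Fin m → E) (v : E) : Prop where
  lt : ∀ i j, i < j → (inner ℝ v (e j) : ℝ) < inner ℝ v (e i)
  nn : ∀ i, 0 ≤ (inner ℝ v (e i) : ℝ)
  pos : d ≠ 0 → ∀ i, 0 < (inner ℝ v (e i) : ℝ)

/-- a signed permutation of the frame is ordered -/
theorem sorted_frame14 (h : Wd Φ X n l v) (F : Fr Φ m e c d) : ∃ e' : Fin m → E, Fr Φ m e' c d ∧ Srt14 m d e' v ∧
    ∃ (σ : Equiv.Perm (Fin m)) (s : Fin m → ℝ), (∀ i, s i = 1 ∨ s i = -1) ∧ ∀ i, e' i = s i • e (σ i) := by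
  have hc := F.pos
  set σ : Equiv.Perm (Fin m) := Tuple.sort fun i => -|(inner ℝ v (e i) : ℝ)| with hσ
  have hmono : Monotone ((fun i => -|(inner ℝ v (e i) : ℝ)|) ∘ σ) := Tuple.monotone_sort _
  set s : Fin m → ℝ := fun i => if 0 ≤ (inner ℝ v (e (σ i)) : ℝ) then 1 else -1 with hs'
  have hs1 : ∀ i, s i = 1 ∨ s i = -1 := by
    intro i
    simp only [hs']
    split_ifs
    · left; rfl
    · right; rfl
  have F' := fr_perm43 F σ s hs1
  have hvi : ∀ i, (inner ℝ v (s i • e (σ i)) : ℝ) = |(inner ℝ v (e (σ i)) : ℝ)| := by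
    intro i
    rw [inner_smul_right]
    simp only [hs']
    split_ifs with h1
    · rw [abs_of_nonneg h1]
      simp
    · push Not at h1
      rw [abs_of_neg h1]
      simp
  refine ⟨fun i => s i • e (σ i), F', ⟨?_, ?_, ?_⟩, σ, s, hs1, fun i => rfl⟩
  · intro i j hij
    rw [hvi, hvi]
    have h1 := hmono hij.le
    simp only [Function.comp_apply] at h1
    rcases lt_or_eq_of_le (show |(inner ℝ v (e (σ j)) : ℝ)| ≤ |inner ℝ v (e (σ i))| by linarith) with h2 | h2
    · exact h2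
    · exfalso
      have hne : σ i ≠ σ j := fun h3 => (ne_of_lt hij) (σ.injective h3)
      rcases abs_eq_abs.1 h2 with h3 | h3
      · refine h.reg (c • (e (σ i) - e (σ j))) ((F.mem _).2 (Or.inl ⟨σ i, σ j, hne, Or.inr (Or.inl rfl)⟩)) ?_
        rw [inner_smul_right, inner_sub_right, h3, sub_self, mul_zero]
      · refine h.reg (c • (e (σ i) + e (σ j))) ((F.mem _).2 (Or.inl ⟨σ i, σ j, hne, Or.inl rfl⟩)) ?_
        rw [inner_smul_right, inner_add_right, h3, add_neg_cancel, mul_zero]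
  · intro i
    rw [hvi]
    exact abs_nonneg _
  · intro hd0 i
    rw [hvi, abs_pos]
    intro h1
    refine h.reg ((d * c : ℝ) • e (σ i)) ((F.mem _).2 (Or.inr ⟨hd0, σ i, Or.inl rfl⟩)) ?_
    rw [inner_smul_right, h1, mul_zero]

/-- the coordinates of a dominant vector are decreasing -/
theorem dom14 (F : Fr Φ m e c d) (S : Srt14 m d e v) {w : E} (hw : ∀ a ∈ Ps Φ v, 0 ≤ (inner ℝ w a : ℝ)) :
    (∀ i j, i < j → |(inner ℝ w (e j) : ℝ)| ≤ inner ℝ w (e i)) ∧ (d ≠ 0 → ∀ i, 0 ≤ (inner ℝ w (e i) : ℝ)) := by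
  classical
  have hc := F.pos
  have hmem2 : ∀ {i j : Fin m} (hij : i < j) {s : ℝ} (h : s = 1 ∨ s = -1), c • (e i + s • e j) ∈ Ps Φ v := by
    intro i j hij s hs'
    unfold Ps
    rw [Finset.mem_filter]
    refine ⟨?_, ?_⟩
    · rw [F.mem, fr_pairs43]
      exact Or.inl ⟨i, j, ne_of_lt hij, 1, s, Or.inl rfl, hs', by rw [one_smul]⟩
    · rw [inner_smul_right, inner_add_right, inner_smul_right]
      have h1 := S.lt i j hij
      have h2 := S.nn j
      have h3 : 0 < (inner ℝ v (e i) : ℝ) + s * inner ℝ v (e j) := by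
        rcases hs' with rfl | rfl <;> linarith
      positivity
  constructor
  · intro i j hij
    have h1 := hw _ (hmem2 hij (s := 1) (Or.inl rfl))
    have h2 := hw _ (hmem2 hij (s := -1) (Or.inr rfl))
    rw [inner_smul_right, inner_add_right, inner_smul_right] at h1 h2
    have h3 := nonneg_of_mul_nonneg_right h1 hc
    have h4 := nonneg_of_mul_nonneg_right h2 hc
    rw [abs_le]
    constructor <;> linarith
  · intro hd0 i
    have hdr : (0 : ℝ) < d := by exact_mod_cast Nat.pos_of_ne_zero hd0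
    have h1 : (d * c : ℝ) • e i ∈ Ps Φ v := by
      unfold Ps
      rw [Finset.mem_filter]
      refine ⟨(F.mem _).2 (Or.inr ⟨hd0, i, Or.inl rfl⟩), ?_⟩
      rw [inner_smul_right]
      exact mul_pos (mul_pos hdr hc) (S.pos hd0 i)
    have h2 := hw _ h1
    rw [inner_smul_right] at h2
    exact nonneg_of_mul_nonneg_right h2 (mul_pos hdr hc)

/-- the sum of the `⟨x, a^∨⟩` over the positive roots -/
theorem sum_co14 (F : Fr Φ m e c d) (S : Srt14 m d e v) (x : E) :
    ∑ a ∈ Ps Φ v, co a x = (∑ i : Fin m, ((m : ℝ) - 1 - (i : ℕ)) * (2 * cx e c x i)) +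
      (if d = 0 then 0 else ∑ i, 2 / (d : ℝ) * cx e c x i) := by
  classical
  have hc := F.pos
  have h1 := ps_sorted43 F S.lt S.nn S.pos (fun a => Multiplicative.ofAdd (co a x))
  have h2 : ∑ a ∈ Ps Φ v, co a x = (∑ i, ∑ j ∈ Finset.Ioi i, co (c • (e i + (-1 : ℝ) • e j)) x) +
      (∑ i, ∑ j ∈ Finset.Ioi i, co (c • (e i + (1 : ℝ) • e j)) x) +
        (if d = 0 then 0 else ∑ i, co ((d * c : ℝ) • e i) x) := by
    have h3 := congrArg Multiplicative.toAdd h1
    rw [toAdd_mul, toAdd_mul, toAdd_prod, toAdd_prod, toAdd_prod] at h3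
    simp only [toAdd_prod, toAdd_ofAdd] at h3
    rw [h3]
    congr 1
  rw [h2]
  have h3 : ∀ i j : Fin m, i < j → ∀ t : ℤ, (t = 1 ∨ t = -1) →
      co (c • (e i + ((t : ℤ) : ℝ) • e j)) x = cx e c x i + t * cx e c x j := by
    intro i j hij t ht
    have h4 := F.co_rt (ne_of_lt hij) (s := 1) (Or.inl rfl) ht x
    unfold rt at h4
    rw [Int.cast_one, one_smul, one_mul] at h4
    exact h4
  have h5 : (∑ i, ∑ j ∈ Finset.Ioi i, co (c • (e i + (-1 : ℝ) • e j)) x) +
      (∑ i, ∑ j ∈ Finset.Ioi i, co (c • (e i + (1 : ℝ) • e j)) x) =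
      ∑ i : Fin m, ((m : ℝ) - 1 - (i : ℕ)) * (2 * cx e c x i) := by
    rw [← Finset.sum_add_distrib]
    refine Finset.sum_congr rfl fun i _ => ?_
    rw [← Finset.sum_add_distrib]
    have h6 : ∀ j ∈ Finset.Ioi i, co (c • (e i + (-1 : ℝ) • e j)) x + co (c • (e i + (1 : ℝ) • e j)) x = 2 * cx e c x i := by
      intro j hj
      have h7 := h3 i j (Finset.mem_Ioi.1 hj) (-1) (Or.inr rfl)
      have h8 := h3 i j (Finset.mem_Ioi.1 hj) 1 (Or.inl rfl)
      push_cast at h7 h8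
      rw [h7, h8]
      ring
    rw [Finset.sum_congr rfl h6, Finset.sum_const, Fin.card_Ioi, nsmul_eq_mul]
    congr 1
    have := i.2
    rw [Nat.cast_sub (by omega), Nat.cast_sub (by omega)]
    push_cast
    ring
  rw [h5]
  congr 1
  split_ifs with hd
  · rfl
  · refine Finset.sum_congr rfl fun i _ => ?_
    have hdr : (d : ℝ) ≠ 0 := by exact_mod_cast hd
    unfold co cx
    rw [inner_smul_right, inner_smul_left, inner_smul_right, F.inner_e, if_pos rfl]
    simp only [conj_trivial]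
    field_simp

/-- the Casimir constant of a vector with `K` coordinates `± 1` -/
theorem cas_ones14 (F : Fr Φ m e c d) (hm : 2 ≤ m) {x : E} (hx : x ∈ Submodule.span ℝ (Φ : Set E)) (z : Fin m → ℤ)
    (hz : ∀ i, cx e c x i = z i) {K : ℕ} (hK : K ≤ m) (h1 : ∀ j : Fin m, |z j| = if (j : ℕ) < K then 1 else 0) :
    cas Φ x = c ^ 2 * (K * (2 * m + d - K)) := by
  classical
  rw [F.cas_eq hm hx z hz]
  have habs : ∀ j : Fin m, |(z j : ℝ)| = if (j : ℕ) < K then 1 else 0 := by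
    intro j
    rw [← Int.cast_abs, h1 j]
    split_ifs <;> simp
  have hcard : (∑ j : Fin m, if (j : ℕ) < K then (1 : ℝ) else 0) = K := by
    rw [Finset.sum_boole]
    congr 1
    have h2 : (Finset.univ.filter fun j : Fin m => (j : ℕ) < K).card = K := by
      rcases Nat.eq_or_lt_of_le hK with h3 | h3
      · subst h3
        rw [Finset.filter_true_of_mem fun j _ => j.2, Finset.card_univ, Fintype.card_fin]
      · have h4 : (Finset.univ.filter fun j : Fin m => (j : ℕ) < K) = Finset.Iio ⟨K, h3⟩ := by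
          ext a
          simp [Fin.lt_def]
        rw [h4, Fin.card_Iio]
    exact h2
  have hsq : ∀ j : Fin m, (z j : ℝ) ^ 2 = if (j : ℕ) < K then 1 else 0 := by
    intro j
    rw [← sq_abs, habs j]
    split_ifs <;> norm_num
  rw [Finset.sum_congr rfl fun j _ => hsq j, Finset.sum_congr rfl fun j _ => habs j, hcard]
  have hmax : ∑ p ∈ (Finset.univ : Finset (Fin m)).offDiag, max |(z p.1 : ℝ)| |(z p.2 : ℝ)| =
      (m : ℝ) * (m - 1) - ((m : ℝ) - K) * (m - K - 1) := by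
    have h2 : ∀ p ∈ (Finset.univ : Finset (Fin m)).offDiag, max |(z p.1 : ℝ)| |(z p.2 : ℝ)| =
        1 - (1 - |(z p.1 : ℝ)|) * (1 - |(z p.2 : ℝ)|) := by
      intro p _
      rw [habs, habs]
      split_ifs <;> norm_num
    rw [Finset.sum_congr rfl h2, Finset.sum_sub_distrib, Finset.sum_const, nsmul_eq_mul, mul_one, offDiag_card]
    congr 1
    rw [sum_off (fun i j => (1 - |(z i : ℝ)|) * (1 - |(z j : ℝ)|))]
    have h3 : ∑ i : Fin m, (1 - |(z i : ℝ)|) = m - K := by
      rw [Finset.sum_sub_distrib, Finset.sum_const, Finset.card_univ, Fintype.card_fin, nsmul_eq_mul, mul_one,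
        Finset.sum_congr rfl fun j _ => habs j, hcard]
    have h4 : ∑ i : Fin m, (1 - |(z i : ℝ)|) * (1 - |(z i : ℝ)|) = m - K := by
      rw [← h3]
      refine Finset.sum_congr rfl fun j _ => ?_
      rw [habs]
      split_ifs <;> norm_num
    rw [h4]
    have h5 : ∑ i : Fin m, ∑ j : Fin m, (1 - |(z i : ℝ)|) * (1 - |(z j : ℝ)|) = ((m : ℝ) - K) * (m - K) := by
      rw [← h3, Finset.sum_mul_sum]
    rw [h5]
    ring
  rw [hmax]
  ring

/-- the Casimir constant of a vector with all coordinates `± 1/2` -/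
theorem cas_half14 (F : Fr Φ m e c d) (hm : 2 ≤ m) {x : E} (hx : x ∈ Submodule.span ℝ (Φ : Set E)) (Z : Fin m → ℤ)
    (hZ : ∀ i, 2 * cx e c x i = Z i) (h1 : ∀ i, |Z i| = 1) :
    cas Φ x = c ^ 2 * (m * (2 * m - 1 + 2 * d) / 4) := by
  classical
  have hc := F.pos
  have h2 : ∀ i, inner ℝ x (e i) = c * ((Z i : ℝ) / 2) := by
    intro i
    have := hZ i
    unfold cx at this
    field_simp at this ⊢
    linarith
  have hsq : ∀ i, (Z i : ℝ) * Z i = 1 := by
    intro i
    have h3 : Z i * Z i = 1 := by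
      rw [← abs_mul_abs_self, h1]
      norm_num
    exact_mod_cast h3
  have h3 : (inner ℝ x x : ℝ) = c ^ 2 * (m / 4) := by
    rw [F.inner_eq hm hx]
    have h4 : ∀ i ∈ (Finset.univ : Finset (Fin m)), (inner ℝ x (e i) : ℝ) * inner ℝ x (e i) = c ^ 2 / 4 := by
      intro i _
      rw [h2 i]
      linear_combination c ^ 2 / 4 * hsq i
    rw [Finset.sum_congr rfl h4, Finset.sum_const, Finset.card_univ, Fintype.card_fin, nsmul_eq_mul]
    ring
  have h4 := F.sum (fun a => |inner ℝ x a|) (fun a => by rw [inner_neg_right, abs_neg])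
  have h5 : ∀ p ∈ (Finset.univ : Finset (Fin m)).offDiag,
      |(inner ℝ x (rt e c 1 1 p.1 p.2) : ℝ)| + |(inner ℝ x (rt e c 1 (-1) p.1 p.2) : ℝ)| = c ^ 2 := by
    intro p _
    rw [inner_rt, inner_rt, h2, h2]
    have h6 : c * (((1 : ℤ) : ℝ) * (c * ((Z p.1 : ℝ) / 2)) + ((1 : ℤ) : ℝ) * (c * ((Z p.2 : ℝ) / 2))) =
        c ^ 2 * (((Z p.1 : ℝ) + Z p.2) / 2) := by
      push_cast; ring
    have h7 : c * (((1 : ℤ) : ℝ) * (c * ((Z p.1 : ℝ) / 2)) + ((-1 : ℤ) : ℝ) * (c * ((Z p.2 : ℝ) / 2))) =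
        c ^ 2 * (((Z p.1 : ℝ) - Z p.2) / 2) := by
      push_cast; ring
    rw [h6, h7, abs_mul, abs_mul, abs_of_pos (by positivity : (0 : ℝ) < c ^ 2), ← mul_add]
    have h8 : (Z p.1 : ℝ) = 1 ∨ (Z p.1 : ℝ) = -1 := by
      rcases abs_eq (by norm_num : (0 : ℤ) ≤ 1) |>.1 (h1 p.1) with h | h <;> rw [h] <;> norm_num
    have h9 : (Z p.2 : ℝ) = 1 ∨ (Z p.2 : ℝ) = -1 := by
      rcases abs_eq (by norm_num : (0 : ℤ) ≤ 1) |>.1 (h1 p.2) with h | h <;> rw [h] <;> norm_num
    rcases h8 with h8 | h8 <;> rcases h9 with h9 | h9 <;> rw [h8, h9] <;> norm_num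
  have h6 : ∀ i ∈ (Finset.univ : Finset (Fin m)), |(inner ℝ x (((d : ℝ) * c) • e i) : ℝ)| = c ^ 2 * (d / 2) := by
    intro i _
    rw [inner_smul_right, h2]
    have h7 : (d : ℝ) * c * (c * ((Z i : ℝ) / 2)) = (c ^ 2 * (d / 2)) * Z i := by ring
    rw [h7, abs_mul, abs_of_nonneg (by positivity : (0 : ℝ) ≤ c ^ 2 * (d / 2)), ← Int.cast_abs, h1 i]
    simp
  unfold cas
  rw [h3, h4, Finset.sum_congr rfl h5, Finset.sum_congr rfl h6, Finset.sum_const, nsmul_eq_mul, offDiag_card,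
    Finset.sum_const, Finset.card_univ, Fintype.card_fin, nsmul_eq_mul]
  by_cases hd : d = 0
  · rw [if_pos hd, hd]
    push_cast
    ring
  · rw [if_neg hd]
    ring

end

end LT
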