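import Pool.Agent.Helper81.LT.Defs
import Pool.Agent.Helper43.PW.DimD
import Pool.Agent.Helper27.TF.Sum

/-!
Project LT (MP_b8862a_ag), block typeBCD: triality for `D_4`.
-/

set_option linter.unusedSectionVars false
set_option linter.unusedVariables false

open Module PF TF PW AG

namespace LT

section
variable {E : Type*} [NormedAddCommGroup E] [InnerProductSpace ℝ E] {Φ X : Finset E} {n T : ℕ} {l y : E} {c : ℝ}

/-- the rotated frame -/
noncomputable def rot14 (e : Fin 4 → E) : Fin 4 → E :=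
  ![(1 / 2 : ℝ) • (e 0 + e 1 + e 2 + e 3), (1 / 2 : ℝ) • (e 0 + e 1 - e 2 - e 3),
    (1 / 2 : ℝ) • (e 0 - e 1 + e 2 - e 3), (1 / 2 : ℝ) • (e 0 - e 1 - e 2 + e 3)]

theorem rot0 (e : Fin 4 → E) : rot14 e 0 = (1 / 2 : ℝ) • (e 0 + e 1 + e 2 + e 3) := rfl
theorem rot1 (e : Fin 4 → E) : rot14 e 1 = (1 / 2 : ℝ) • (e 0 + e 1 - e 2 - e 3) := rfl
theorem rot2 (e : Fin 4 → E) : rot14 e 2 = (1 / 2 : ℝ) • (e 0 - e 1 + e 2 - e 3) := rfl
theorem rot3 (e : Fin 4 → E) : rot14 e 3 = (1 / 2 : ℝ) • (e 0 - e 1 - e 2 + e 3) := rfl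

theorem rot_rot14 (e : Fin 4 → E) : rot14 (rot14 e) = e := by
  funext i
  fin_cases i
  · change rot14 (rot14 e) 0 = e 0
    rw [rot0, rot0, rot1, rot2, rot3]
    module
  · change rot14 (rot14 e) 1 = e 1
    rw [rot1, rot0, rot1, rot2, rot3]
    module
  · change rot14 (rot14 e) 2 = e 2
    rw [rot2, rot0, rot1, rot2, rot3]
    module
  · change rot14 (rot14 e) 3 = e 3
    rw [rot3, rot0, rot1, rot2, rot3]
    module

/-- the roots with two nonzero coordinates -/
def Rt14 (e : Fin 4 → E) (c : ℝ) (a : E) : Prop :=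
  ∃ i j, i ≠ j ∧ ∃ s t : ℝ, (s = 1 ∨ s = -1) ∧ (t = 1 ∨ t = -1) ∧ a = c • (s • e i + t • e j)

theorem Rt14.neg {e : Fin 4 → E} {a : E} (h : Rt14 e c a) : Rt14 e c (-a) := by
  obtain ⟨i, j, hij, s, t, hs, ht, rfl⟩ := h
  refine ⟨i, j, hij, -s, -t, ?_, ?_, by module⟩
  · rcases hs with h | h <;> rw [h] <;> norm_num
  · rcases ht with h | h <;> rw [h] <;> norm_num

theorem rt_01p (e : Fin 4 → E) (c : ℝ) : Rt14 (rot14 e) c (c • (e 0 + e 1)) :=
  ⟨0, 1, by decide, 1, 1, by norm_num, by norm_num, by rw [rot0, rot1]; module⟩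
theorem rt_01m (e : Fin 4 → E) (c : ℝ) : Rt14 (rot14 e) c (c • (e 0 - e 1)) :=
  ⟨2, 3, by decide, 1, 1, by norm_num, by norm_num, by rw [rot2, rot3]; module⟩
theorem rt_02p (e : Fin 4 → E) (c : ℝ) : Rt14 (rot14 e) c (c • (e 0 + e 2)) :=
  ⟨0, 2, by decide, 1, 1, by norm_num, by norm_num, by rw [rot0, rot2]; module⟩
theorem rt_02m (e : Fin 4 → E) (c : ℝ) : Rt14 (rot14 e) c (c • (e 0 - e 2)) :=
  ⟨1, 3, by decide, 1, 1, by norm_num, by norm_num, by rw [rot1, rot3]; module⟩
theorem rt_03p (e : Fin 4 → E) (c : ℝ) : Rt14 (rot14 e) c (c • (e 0 + e 3)) :=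
  ⟨0, 3, by decide, 1, 1, by norm_num, by norm_num, by rw [rot0, rot3]; module⟩
theorem rt_03m (e : Fin 4 → E) (c : ℝ) : Rt14 (rot14 e) c (c • (e 0 - e 3)) :=
  ⟨1, 2, by decide, 1, 1, by norm_num, by norm_num, by rw [rot1, rot2]; module⟩
theorem rt_10p (e : Fin 4 → E) (c : ℝ) : Rt14 (rot14 e) c (c • (e 1 + e 0)) :=
  ⟨0, 1, by decide, 1, 1, by norm_num, by norm_num, by rw [rot0, rot1]; module⟩
theorem rt_10m (e : Fin 4 → E) (c : ℝ) : Rt14 (rot14 e) c (c • (e 1 - e 0)) :=
  ⟨2, 3, by decide, (-1), (-1), by norm_num, by norm_num, by rw [rot2, rot3]; module⟩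
theorem rt_12p (e : Fin 4 → E) (c : ℝ) : Rt14 (rot14 e) c (c • (e 1 + e 2)) :=
  ⟨0, 3, by decide, 1, (-1), by norm_num, by norm_num, by rw [rot0, rot3]; module⟩
theorem rt_12m (e : Fin 4 → E) (c : ℝ) : Rt14 (rot14 e) c (c • (e 1 - e 2)) :=
  ⟨1, 2, by decide, 1, (-1), by norm_num, by norm_num, by rw [rot1, rot2]; module⟩
theorem rt_13p (e : Fin 4 → E) (c : ℝ) : Rt14 (rot14 e) c (c • (e 1 + e 3)) :=
  ⟨0, 2, by decide, 1, (-1), by norm_num, by norm_num, by rw [rot0, rot2]; module⟩
theorem rt_13m (e : Fin 4 → E) (c : ℝ) : Rt14 (rot14 e) c (c • (e 1 - e 3)) :=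
  ⟨1, 3, by decide, 1, (-1), by norm_num, by norm_num, by rw [rot1, rot3]; module⟩
theorem rt_20p (e : Fin 4 → E) (c : ℝ) : Rt14 (rot14 e) c (c • (e 2 + e 0)) :=
  ⟨0, 2, by decide, 1, 1, by norm_num, by norm_num, by rw [rot0, rot2]; module⟩
theorem rt_20m (e : Fin 4 → E) (c : ℝ) : Rt14 (rot14 e) c (c • (e 2 - e 0)) :=
  ⟨1, 3, by decide, (-1), (-1), by norm_num, by norm_num, by rw [rot1, rot3]; module⟩
theorem rt_21p (e : Fin 4 → E) (c : ℝ) : Rt14 (rot14 e) c (c • (e 2 + e 1)) :=
  ⟨0, 3, by decide, 1, (-1), by norm_num, by norm_num, by rw [rot0, rot3]; module⟩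
theorem rt_21m (e : Fin 4 → E) (c : ℝ) : Rt14 (rot14 e) c (c • (e 2 - e 1)) :=
  ⟨1, 2, by decide, (-1), 1, by norm_num, by norm_num, by rw [rot1, rot2]; module⟩
theorem rt_23p (e : Fin 4 → E) (c : ℝ) : Rt14 (rot14 e) c (c • (e 2 + e 3)) :=
  ⟨0, 1, by decide, 1, (-1), by norm_num, by norm_num, by rw [rot0, rot1]; module⟩
theorem rt_23m (e : Fin 4 → E) (c : ℝ) : Rt14 (rot14 e) c (c • (e 2 - e 3)) :=
  ⟨2, 3, by decide, 1, (-1), by norm_num, by norm_num, by rw [rot2, rot3]; module⟩
theorem rt_30p (e : Fin 4 → E) (c : ℝ) : Rt14 (rot14 e) c (c • (e 3 + e 0)) :=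
  ⟨0, 3, by decide, 1, 1, by norm_num, by norm_num, by rw [rot0, rot3]; module⟩
theorem rt_30m (e : Fin 4 → E) (c : ℝ) : Rt14 (rot14 e) c (c • (e 3 - e 0)) :=
  ⟨1, 2, by decide, (-1), (-1), by norm_num, by norm_num, by rw [rot1, rot2]; module⟩
theorem rt_31p (e : Fin 4 → E) (c : ℝ) : Rt14 (rot14 e) c (c • (e 3 + e 1)) :=
  ⟨0, 2, by decide, 1, (-1), by norm_num, by norm_num, by rw [rot0, rot2]; module⟩
theorem rt_31m (e : Fin 4 → E) (c : ℝ) : Rt14 (rot14 e) c (c • (e 3 - e 1)) :=
  ⟨1, 3, by decide, (-1), 1, by norm_num, by norm_num, by rw [rot1, rot3]; module⟩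
theorem rt_32p (e : Fin 4 → E) (c : ℝ) : Rt14 (rot14 e) c (c • (e 3 + e 2)) :=
  ⟨0, 1, by decide, 1, (-1), by norm_num, by norm_num, by rw [rot0, rot1]; module⟩
theorem rt_32m (e : Fin 4 → E) (c : ℝ) : Rt14 (rot14 e) c (c • (e 3 - e 2)) :=
  ⟨2, 3, by decide, (-1), 1, by norm_num, by norm_num, by rw [rot2, rot3]; module⟩

theorem rt_all14 (e : Fin 4 → E) (c : ℝ) : ∀ i j, i ≠ j → Rt14 (rot14 e) c (c • (e i + e j)) ∧ Rt14 (rot14 e) c (c • (e i - e j)) := by
  intro i j hij
  fin_cases i <;> fin_cases j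
  · exact absurd rfl hij
  · exact ⟨rt_01p e c, rt_01m e c⟩
  · exact ⟨rt_02p e c, rt_02m e c⟩
  · exact ⟨rt_03p e c, rt_03m e c⟩
  · exact ⟨rt_10p e c, rt_10m e c⟩
  · exact absurd rfl hij
  · exact ⟨rt_12p e c, rt_12m e c⟩
  · exact ⟨rt_13p e c, rt_13m e c⟩
  · exact ⟨rt_20p e c, rt_20m e c⟩
  · exact ⟨rt_21p e c, rt_21m e c⟩
  · exact absurd rfl hij
  · exact ⟨rt_23p e c, rt_23m e c⟩
  · exact ⟨rt_30p e c, rt_30m e c⟩
  · exact ⟨rt_31p e c, rt_31m e c⟩
  · exact ⟨rt_32p e c, rt_32m e c⟩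
  · exact absurd rfl hij

theorem rt_sub14 {e : Fin 4 → E} {a : E} (h : ∃ i j, i ≠ j ∧ (a = c • (e i + e j) ∨ a = c • (e i - e j) ∨ a = -(c • (e i + e j)))) :
    Rt14 (rot14 e) c a := by
  obtain ⟨i, j, hij, rfl | rfl | rfl⟩ := h
  · exact (rt_all14 e c i j hij).1
  · exact (rt_all14 e c i j hij).2
  · exact (rt_all14 e c i j hij).1.neg

/-- triality: the rotated frame is a frame -/
theorem fr_rot14 {e : Fin 4 → E} (F : Fr Φ 4 e c 0) : Fr Φ 4 (rot14 e) c 0 where
  on := by
    rw [orthonormal_iff_ite]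
    intro i j
    have h00 := F.inner_e 0 0
    have h01 := F.inner_e 0 1
    have h02 := F.inner_e 0 2
    have h03 := F.inner_e 0 3
    have h10 := F.inner_e 1 0
    have h11 := F.inner_e 1 1
    have h12 := F.inner_e 1 2
    have h13 := F.inner_e 1 3
    have h20 := F.inner_e 2 0
    have h21 := F.inner_e 2 1
    have h22 := F.inner_e 2 2
    have h23 := F.inner_e 2 3
    have h30 := F.inner_e 3 0
    have h31 := F.inner_e 3 1
    have h32 := F.inner_e 3 2
    have h33 := F.inner_e 3 3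
    rw [if_pos rfl] at h00 h11 h22 h33
    rw [if_neg (by decide)] at h01 h02 h03 h10 h12 h13 h20 h21 h23 h30 h31 h32
    fin_cases i <;> fin_cases j
    · change (inner ℝ (rot14 e 0) (rot14 e 0) : ℝ) = if (0 : Fin 4) = 0 then 1 else 0
      rw [if_pos rfl, rot0]
      simp only [inner_smul_left, inner_smul_right, inner_add_left, inner_add_right, inner_sub_left, inner_sub_right,
        conj_trivial, h00, h01, h02, h03, h10, h11, h12, h13, h20, h21, h22, h23, h30, h31, h32, h33]
      norm_num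
    · change (inner ℝ (rot14 e 0) (rot14 e 1) : ℝ) = if (0 : Fin 4) = 1 then 1 else 0
      rw [if_neg (by decide), rot0, rot1]
      simp only [inner_smul_left, inner_smul_right, inner_add_left, inner_add_right, inner_sub_left, inner_sub_right,
        conj_trivial, h00, h01, h02, h03, h10, h11, h12, h13, h20, h21, h22, h23, h30, h31, h32, h33]
      norm_num
    · change (inner ℝ (rot14 e 0) (rot14 e 2) : ℝ) = if (0 : Fin 4) = 2 then 1 else 0
      rw [if_neg (by decide), rot0, rot2]
      simp only [inner_smul_left, inner_smul_right, inner_add_left, inner_add_right, inner_sub_left, inner_sub_right,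
        conj_trivial, h00, h01, h02, h03, h10, h11, h12, h13, h20, h21, h22, h23, h30, h31, h32, h33]
      norm_num
    · change (inner ℝ (rot14 e 0) (rot14 e 3) : ℝ) = if (0 : Fin 4) = 3 then 1 else 0
      rw [if_neg (by decide), rot0, rot3]
      simp only [inner_smul_left, inner_smul_right, inner_add_left, inner_add_right, inner_sub_left, inner_sub_right,
        conj_trivial, h00, h01, h02, h03, h10, h11, h12, h13, h20, h21, h22, h23, h30, h31, h32, h33]
      norm_num
    · change (inner ℝ (rot14 e 1) (rot14 e 0) : ℝ) = if (1 : Fin 4) = 0 then 1 else 0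
      rw [if_neg (by decide), rot1, rot0]
      simp only [inner_smul_left, inner_smul_right, inner_add_left, inner_add_right, inner_sub_left, inner_sub_right,
        conj_trivial, h00, h01, h02, h03, h10, h11, h12, h13, h20, h21, h22, h23, h30, h31, h32, h33]
      norm_num
    · change (inner ℝ (rot14 e 1) (rot14 e 1) : ℝ) = if (1 : Fin 4) = 1 then 1 else 0
      rw [if_pos rfl, rot1]
      simp only [inner_smul_left, inner_smul_right, inner_add_left, inner_add_right, inner_sub_left, inner_sub_right,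
        conj_trivial, h00, h01, h02, h03, h10, h11, h12, h13, h20, h21, h22, h23, h30, h31, h32, h33]
      norm_num
    · change (inner ℝ (rot14 e 1) (rot14 e 2) : ℝ) = if (1 : Fin 4) = 2 then 1 else 0
      rw [if_neg (by decide), rot1, rot2]
      simp only [inner_smul_left, inner_smul_right, inner_add_left, inner_add_right, inner_sub_left, inner_sub_right,
        conj_trivial, h00, h01, h02, h03, h10, h11, h12, h13, h20, h21, h22, h23, h30, h31, h32, h33]
      norm_num
    · change (inner ℝ (rot14 e 1) (rot14 e 3) : ℝ) = if (1 : Fin 4) = 3 then 1 else 0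
      rw [if_neg (by decide), rot1, rot3]
      simp only [inner_smul_left, inner_smul_right, inner_add_left, inner_add_right, inner_sub_left, inner_sub_right,
        conj_trivial, h00, h01, h02, h03, h10, h11, h12, h13, h20, h21, h22, h23, h30, h31, h32, h33]
      norm_num
    · change (inner ℝ (rot14 e 2) (rot14 e 0) : ℝ) = if (2 : Fin 4) = 0 then 1 else 0
      rw [if_neg (by decide), rot2, rot0]
      simp only [inner_smul_left, inner_smul_right, inner_add_left, inner_add_right, inner_sub_left, inner_sub_right,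
        conj_trivial, h00, h01, h02, h03, h10, h11, h12, h13, h20, h21, h22, h23, h30, h31, h32, h33]
      norm_num
    · change (inner ℝ (rot14 e 2) (rot14 e 1) : ℝ) = if (2 : Fin 4) = 1 then 1 else 0
      rw [if_neg (by decide), rot2, rot1]
      simp only [inner_smul_left, inner_smul_right, inner_add_left, inner_add_right, inner_sub_left, inner_sub_right,
        conj_trivial, h00, h01, h02, h03, h10, h11, h12, h13, h20, h21, h22, h23, h30, h31, h32, h33]
      norm_num
    · change (inner ℝ (rot14 e 2) (rot14 e 2) : ℝ) = if (2 : Fin 4) = 2 then 1 else 0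
      rw [if_pos rfl, rot2]
      simp only [inner_smul_left, inner_smul_right, inner_add_left, inner_add_right, inner_sub_left, inner_sub_right,
        conj_trivial, h00, h01, h02, h03, h10, h11, h12, h13, h20, h21, h22, h23, h30, h31, h32, h33]
      norm_num
    · change (inner ℝ (rot14 e 2) (rot14 e 3) : ℝ) = if (2 : Fin 4) = 3 then 1 else 0
      rw [if_neg (by decide), rot2, rot3]
      simp only [inner_smul_left, inner_smul_right, inner_add_left, inner_add_right, inner_sub_left, inner_sub_right,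
        conj_trivial, h00, h01, h02, h03, h10, h11, h12, h13, h20, h21, h22, h23, h30, h31, h32, h33]
      norm_num
    · change (inner ℝ (rot14 e 3) (rot14 e 0) : ℝ) = if (3 : Fin 4) = 0 then 1 else 0
      rw [if_neg (by decide), rot3, rot0]
      simp only [inner_smul_left, inner_smul_right, inner_add_left, inner_add_right, inner_sub_left, inner_sub_right,
        conj_trivial, h00, h01, h02, h03, h10, h11, h12, h13, h20, h21, h22, h23, h30, h31, h32, h33]
      norm_num
    · change (inner ℝ (rot14 e 3) (rot14 e 1) : ℝ) = if (3 : Fin 4) = 1 then 1 else 0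
      rw [if_neg (by decide), rot3, rot1]
      simp only [inner_smul_left, inner_smul_right, inner_add_left, inner_add_right, inner_sub_left, inner_sub_right,
        conj_trivial, h00, h01, h02, h03, h10, h11, h12, h13, h20, h21, h22, h23, h30, h31, h32, h33]
      norm_num
    · change (inner ℝ (rot14 e 3) (rot14 e 2) : ℝ) = if (3 : Fin 4) = 2 then 1 else 0
      rw [if_neg (by decide), rot3, rot2]
      simp only [inner_smul_left, inner_smul_right, inner_add_left, inner_add_right, inner_sub_left, inner_sub_right,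
        conj_trivial, h00, h01, h02, h03, h10, h11, h12, h13, h20, h21, h22, h23, h30, h31, h32, h33]
      norm_num
    · change (inner ℝ (rot14 e 3) (rot14 e 3) : ℝ) = if (3 : Fin 4) = 3 then 1 else 0
      rw [if_pos rfl, rot3]
      simp only [inner_smul_left, inner_smul_right, inner_add_left, inner_add_right, inner_sub_left, inner_sub_right,
        conj_trivial, h00, h01, h02, h03, h10, h11, h12, h13, h20, h21, h22, h23, h30, h31, h32, h33]
      norm_num
  pos := F.pos
  le := F.le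
  mem := by
    intro a
    rw [F.mem]
    constructor
    · rintro (h | ⟨h, _⟩)
      · left
        exact (fr_pairs43 (rot14 e) c a).2 (rt_sub14 h)
      · exact absurd rfl h
    · rintro (h | ⟨h, _⟩)
      · left
        have h1 := rt_sub14 h
        rw [rot_rot14] at h1
        exact (fr_pairs43 e c a).2 h1
      · exact absurd rfl h

/-- a frame of `D_4` with integral coordinates of `y` -/
theorem rot_exists14 (h : In Φ X n T l y) {e : Fin 4 → E} (F : Fr Φ 4 e c 0) :
    ∃ e' : Fin 4 → E, Fr Φ 4 e' c 0 ∧ ∀ i, ∃ k : ℤ, (inner ℝ y (e' i) : ℝ) * c = k := by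
  have hc := F.pos
  -- it is enough to have one integral coordinate
  have key : ∀ (e' : Fin 4 → E), Fr Φ 4 e' c 0 → ∀ k : ℤ, (inner ℝ y (e' 0) : ℝ) * c = k →
      ∀ i, ∃ k : ℤ, (inner ℝ y (e' i) : ℝ) * c = k := by
    intro e' F' k hk i
    by_cases hi : i = 0
    · exact ⟨k, by rw [hi, hk]⟩
    · obtain ⟨q, hq⟩ := h.lev _ (F'.rt_mem hi (s := 1) (t := -1) (Or.inl rfl) (Or.inr rfl))
      rw [real_inner_comm, inner_rt] at hq
      push_cast at hq
      exact ⟨q + k, by push_cast; linarith⟩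
  have hpm : ∀ i j : Fin 4, i ≠ j → (∃ q : ℤ, (inner ℝ y (e i) : ℝ) * c + inner ℝ y (e j) * c = q) := by
    intro i j hij
    obtain ⟨q, hq⟩ := h.lev _ (F.rt_mem hij (s := 1) (t := 1) (Or.inl rfl) (Or.inl rfl))
    rw [real_inner_comm, inner_rt] at hq
    push_cast at hq
    exact ⟨q, by linarith⟩
  obtain ⟨a, ha⟩ := hpm 0 1 (by decide)
  obtain ⟨b, hb⟩ := hpm 2 3 (by decide)
  obtain ⟨a', ha'⟩ : ∃ q : ℤ, (inner ℝ y (e 2) : ℝ) * c - inner ℝ y (e 3) * c = q := by
    obtain ⟨q, hq⟩ := h.lev _ (F.rt_mem (show (2 : Fin 4) ≠ 3 by decide) (s := 1) (t := -1) (Or.inl rfl) (Or.inr rfl))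
    rw [real_inner_comm, inner_rt] at hq
    push_cast at hq
    exact ⟨q, by linarith⟩
  -- `2 t_3`
  by_cases hev : Even (b - a')
  · obtain ⟨q, hq⟩ := hev
    have h3 : (inner ℝ y (e 3) : ℝ) * c = q := by
      have : ((b - a' : ℤ) : ℝ) = ((q + q : ℤ) : ℝ) := by rw [hq]
      push_cast at this
      linarith
    obtain ⟨p, hp⟩ := h.lev _ (F.rt_mem (show (0 : Fin 4) ≠ 3 by decide) (s := 1) (t := -1) (Or.inl rfl) (Or.inr rfl))
    rw [real_inner_comm, inner_rt] at hp
    push_cast at hp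
    exact ⟨e, F, key e F (p + q) (by push_cast; linarith)⟩
  · rcases Int.even_or_odd (a + b) with hab | hab
    · obtain ⟨q, hq⟩ := hab
      refine ⟨rot14 e, fr_rot14 F, key _ (fr_rot14 F) q ?_⟩
      have : ((a + b : ℤ) : ℝ) = ((q + q : ℤ) : ℝ) := by rw [hq]
      push_cast at this
      rw [rot0, inner_smul_right, inner_add_right, inner_add_right, inner_add_right]
      linarith
    · -- change the sign of the last vector
      have F' := fr_perm43 F (Equiv.refl _) (fun i => if i = 3 then -1 else 1) (by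
        intro i
        split_ifs
        · right; rfl
        · left; rfl)
      have hodd : Odd (b - a') := Int.not_even_iff_odd.1 hev
      obtain ⟨q, hq⟩ : Even (a + a') := by
        have h1 : a + a' = (a + b) - (b - a') := by ring
        rw [h1]
        exact hab.sub_odd hodd
      refine ⟨_, fr_rot14 F', key _ (fr_rot14 F') q ?_⟩
      have : ((a + a' : ℤ) : ℝ) = ((q + q : ℤ) : ℝ) := by rw [hq]
      push_cast at this
      rw [rot0]
      simp only [Equiv.refl_apply]
      rw [if_neg (by decide), if_neg (by decide), if_neg (by decide), if_pos trivial]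
      rw [inner_smul_right, inner_add_right, inner_add_right, inner_add_right, one_smul, one_smul, one_smul, neg_one_smul,
        inner_neg_right]
      linarith
end

end LT
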