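import Pool.Agent.Helper14.LT.Geo
import Pool.Agent.Helper14.LT.Dim
import Pool.Agent.Helper14.LT.Rot
import Pool.Agent.Helper90.LT.Num
import Pool.Agent.Helper43.HY.B3

/-!
Project LT (MP_b8862a_ag), block typeBCD: the types `B`, `C`, `D`.
-/

set_option linter.unusedSectionVars false
set_option linter.unusedVariables false

open Module PF TF PW AG

namespace LT

theorem even_or_odd14 {m : ℕ} (T' : Fin m → ℤ) (hp : ∀ i j, Even (T' i - T' j)) (hm : 0 < m) :
    (∃ t : Fin m → ℤ, ∀ i, T' i = 2 * t i) ∨ ∀ i, Odd (T' i) := by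
  rcases Int.even_or_odd (T' ⟨0, hm⟩) with h | h
  · left
    have h1 : ∀ i, Even (T' i) := fun i => by
      have h3 := (hp i ⟨0, hm⟩).add h
      rwa [sub_add_cancel] at h3
    choose t ht using h1
    exact ⟨t, fun i => by rw [ht i]; ring⟩
  · right
    intro i
    have h3 := (hp i ⟨0, hm⟩).add_odd h
    rwa [sub_add_cancel] at h3

section
variable {E : Type*} [NormedAddCommGroup E] [InnerProductSpace ℝ E] {Φ X : Finset E} {n s m d T : ℕ} {l y v : E} {c : ℝ}
  {e : Fin m → E}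

theorem dec_of14 (F : Fr Φ m e c d) (S : Srt14 m d e v) {w : E} (hw : ∀ a ∈ Ps Φ v, 0 ≤ (inner ℝ w a : ℝ)) {f : ℝ}
    (hf : 0 < f) {a : Fin m → ℤ} (ha : ∀ i, (inner ℝ w (e i) : ℝ) * f = a i) : Dec14 a ∧ (d ≠ 0 → ∀ i, 0 ≤ a i) := by
  obtain ⟨h1, h2⟩ := dom14 F S hw
  constructor
  · intro i j hij
    have h3 := h1 i j hij
    have h4 : ((|a j| : ℤ) : ℝ) ≤ ((a i : ℤ) : ℝ) := by
      rw [Int.cast_abs, ← ha, ← ha, abs_mul, abs_of_pos hf]
      exact mul_le_mul_of_nonneg_right h3 hf.le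
    exact_mod_cast h4
  · intro hd i
    have h3 := mul_nonneg (h2 hd i) hf.le
    rw [ha] at h3
    exact_mod_cast h3

theorem sum_of14 (F : Fr Φ m e c d) (hm : 2 ≤ m) (hl : l ∈ Submodule.span ℝ (Φ : Set E)) (hly : (inner ℝ l y : ℝ) = 1)
    {f g : ℝ} {a b : Fin m → ℤ} (ha : ∀ i, (inner ℝ l (e i) : ℝ) * f = a i) (hb : ∀ i, (inner ℝ y (e i) : ℝ) * g = b i)
    {N : ℤ} (hN : f * g = N) : ∑ i, a i * b i = N := by
  have h1 := F.inner_eq hm hl y
  rw [hly] at h1
  have h2 : ((∑ i, a i * b i : ℤ) : ℝ) = (N : ℝ) := by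
    push_cast
    rw [← hN, ← mul_one (f * g), h1, Finset.mul_sum]
    refine Finset.sum_congr rfl fun i _ => ?_
    rw [← ha, ← hb]
    ring
  exact_mod_cast h2

theorem norm_of14 (F : Fr Φ m e c d) (hm : 2 ≤ m) {w : E} (hw : w ∈ Submodule.span ℝ (Φ : Set E)) {g : ℝ}
    {b : Fin m → ℤ} (hb : ∀ i, (inner ℝ w (e i) : ℝ) * g = b i) :
    (inner ℝ w w : ℝ) * g ^ 2 = ((∑ i, b i ^ 2 : ℤ) : ℝ) := by
  rw [F.inner_eq hm hw, Finset.sum_mul]
  push_cast
  refine Finset.sum_congr rfl fun i _ => ?_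
  rw [← hb]
  ring

theorem y_int14 (h : In Φ X n T l y) (F : Fr Φ m e c d) (hm : 2 ≤ m) : ∃ T' : Fin m → ℤ,
    (∀ i, (inner ℝ y (e i) : ℝ) * (2 * c) = T' i) ∧ (∀ i j, Even (T' i - T' j)) ∧ (d = 1 → ∀ i, Even (T' i)) := by
  have hYex : ∀ i, ∃ k : ℤ, (inner ℝ y (e i) : ℝ) * (2 * c) = (k : ℝ) := by
    intro i
    obtain ⟨j, hij⟩ : ∃ j, i ≠ j := by
      have : Nontrivial (Fin m) := Fin.nontrivial_iff_two_le.2 hm
      obtain ⟨j, hj⟩ := exists_ne i
      exact ⟨j, hj.symm⟩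
    obtain ⟨a, ha⟩ := h.lev _ (F.rt_mem hij (s := 1) (t := 1) (Or.inl rfl) (Or.inl rfl))
    obtain ⟨b, hb⟩ := h.lev _ (F.rt_mem hij (s := 1) (t := -1) (Or.inl rfl) (Or.inr rfl))
    rw [real_inner_comm, inner_rt] at ha hb
    refine ⟨a + b, ?_⟩
    push_cast at ha hb ⊢
    linarith
  choose T' hT using hYex
  refine ⟨T', hT, ?_, ?_⟩
  · intro i j
    by_cases hij : i = j
    · rw [hij, sub_self]
      exact ⟨0, rfl⟩
    · obtain ⟨b, hb⟩ := h.lev _ (F.rt_mem hij (s := 1) (t := -1) (Or.inl rfl) (Or.inr rfl))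
      rw [real_inner_comm, inner_rt] at hb
      refine ⟨b, ?_⟩
      have h1 : ((T' i - T' j : ℤ) : ℝ) = ((b + b : ℤ) : ℝ) := by
        push_cast at hb ⊢
        rw [← hT, ← hT]
        linarith
      exact_mod_cast h1
  · intro hd i
    subst hd
    obtain ⟨b, hb⟩ := h.lev _ ((F.mem _).2 (Or.inr ⟨one_ne_zero, i, Or.inl rfl⟩))
    rw [inner_smul_left] at hb
    simp only [conj_trivial] at hb
    push_cast at hb
    refine ⟨b, ?_⟩
    have h1 : ((T' i : ℤ) : ℝ) = ((b + b : ℤ) : ℝ) := by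
      push_cast
      rw [← hT, real_inner_comm]
      linarith
    exact_mod_cast h1

theorem l_int14 (hX : Sat Φ X) (hl : l ∈ X) (F : Fr Φ m e c d) (hm : 2 ≤ m) : ∃ Z : Fin m → ℤ,
    (∀ i, (inner ℝ l (e i) : ℝ) * (2 / c) = Z i) ∧ (∀ i j, Even (Z i - Z j)) ∧ (d = 2 → ∀ i, Even (Z i)) := by
  have hc := F.pos
  have hcx : ∀ i, (inner ℝ l (e i) : ℝ) * (2 / c) = 2 * cx e c l i := by
    intro i
    unfold cx
    ring
  rcases F.int_or hX hm hl with ⟨z, hz⟩ | ⟨z, hz⟩
  · refine ⟨fun i => 2 * z i, ?_, ?_, ?_⟩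
    · intro i
      rw [hcx, hz]
      push_cast
      ring
    · intro i j
      exact ⟨z i - z j, by ring⟩
    · intro _ i
      exact ⟨z i, by ring⟩
  · refine ⟨fun i => 2 * z i + 1, ?_, ?_, ?_⟩
    · intro i
      rw [hcx, hz]
      push_cast
      ring
    · intro i j
      exact ⟨z i - z j, by ring⟩
    · intro hd i
      exfalso
      subst hd
      obtain ⟨k, hk⟩ := hX.int _ ((F.mem _).2 (Or.inr ⟨two_ne_zero, i, Or.inl rfl⟩)) l hl
      unfold co at hk
      rw [inner_smul_right, inner_smul_left, inner_smul_right, F.inner_e, if_pos rfl] at hk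
      simp only [conj_trivial] at hk
      have h1 := hz i
      unfold cx at h1
      rw [div_eq_iff hc.ne'] at h1
      rw [h1] at hk
      push_cast at hk
      have h2 : (z i : ℝ) + 1 / 2 = k := by
        rw [← hk]
        field_simp
      have h3 : ((2 * z i + 1 : ℤ) : ℝ) = ((2 * k : ℤ) : ℝ) := by
        push_cast
        linarith
      have h4 : 2 * z i + 1 = 2 * k := by exact_mod_cast h3
      omega

/-- the dimension of the Lie algebra -/
def dm14 (d m : ℕ) : ℕ := if d = 0 then m * (2 * m - 1) else m * (2 * m + 1)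

theorem idt14 (h : Dt Φ X n s l y v) (F : Fr Φ m e c d) (hm : 2 ≤ m) :
    (n : ℝ) * cas Φ l * inner ℝ y y = 2 * s * ((dm14 d m : ℕ) : ℝ) := by
  have h1 := h.inn.idt
  rw [F.finrank hm, F.card] at h1
  have h2 : ((dm14 d m : ℕ) : ℝ) = m + (2 * m * (m - 1) + (if d = 0 then (0 : ℝ) else 2 * (m : ℝ))) := by
    unfold dm14
    split_ifs
    · rw [Nat.cast_mul, Nat.cast_sub (by omega)]
      push_cast
      ring
    · push_cast
      ring
  rw [h2]
  push_cast at h1
  linarith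

theorem dim14 (h : Dt Φ X n s l y v) (F : Fr Φ m e c d) (S : Srt14 m d e v) (z : Fin m → ℤ)
    (hz : ∀ i, cx e c l i = z i) : (n : ℤ) * Pd d m 0 = Pd d m z := by
  have hc := F.pos
  obtain ⟨-, -, h1, -⟩ := dim_frR_sorted43 h.wd F S.lt S.nn S.pos (k := fun i => (z i : ℝ)) (by
    intro i
    have := hz i
    unfold cx at this
    rw [div_eq_iff hc.ne'] at this
    rw [this]
    ring)
  have h2 : ((n * Pd d m 0 : ℤ) : ℝ) = ((Pd d m z : ℤ) : ℝ) := by
    rw [Int.cast_mul, Pd_cast14, Pd_cast14, ← h1]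
    congr 2
    funext j
    simp
  exact_mod_cast h2

/-- the standard module of type `B` -/
theorem stdB14 (h : In Φ X n T l y) (F : Fr Φ m e c 1) (hm : 2 ≤ m) (z : Fin m → ℤ)
    (hz : ∀ i, cx e c l i = z i) (hz1 : ∑ i, z i ^ 2 ≤ 1) : TypeB Φ X := by
  classical
  have hc := F.pos
  have hc2 : (0 : ℝ) < c ^ 2 := by positivity
  have hlsp := Sat.span27 h.sat h.l_mem
  have hln := F.norm_eq hm hlsp z hz
  rcases small_one43 hz1 with hz0 | ⟨k, hk, hj⟩
  · exfalso
    apply h.l_ne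
    have : (inner ℝ l l : ℝ) = 0 := by rw [hln]; simp [hz0]
    exact inner_self_eq_zero.1 this
  have hall := F.all_single h.sat (k := k) (by
    rcases F.eq_single hm hlsp z hz hk hj with h1 | h1
    · exact Or.inl (h1 ▸ h.l_mem)
    · exact Or.inr (h1 ▸ h.l_mem))
  have hform : ∀ x ∈ X, x = 0 ∨ ∃ i, x = c • e i ∨ x = -(c • e i) := by
    intro x hx
    obtain ⟨w, hw⟩ := F.int_all43 h.sat h.l_mem z hz hx
    have hxsp := Sat.span27 h.sat hx
    have hxn := F.norm_eq hm hxsp w hw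
    have hle := h.l_max x hx
    rw [hxn, hln] at hle
    have h2 : ∑ i, (w i : ℝ) ^ 2 ≤ ∑ i, (z i : ℝ) ^ 2 := le_of_mul_le_mul_left hle hc2
    have h3 : ∑ i, w i ^ 2 ≤ 1 := by
      have h4 : ((∑ i, w i ^ 2 : ℤ) : ℝ) ≤ ((∑ i, z i ^ 2 : ℤ) : ℝ) := by
        push_cast
        exact h2
      have h5 : ∑ i, w i ^ 2 ≤ ∑ i, z i ^ 2 := by exact_mod_cast h4
      exact h5.trans hz1
    rcases small_one43 h3 with h0 | ⟨i, hi, hj'⟩
    · left
      have : (inner ℝ x x : ℝ) = 0 := by rw [hxn]; simp [h0]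
      exact inner_self_eq_zero.1 this
    · exact Or.inr ⟨i, F.eq_single hm hxsp w hw hi hj'⟩
  refine ⟨m, e, F.on, c, F.pos, fun x => ⟨hform x, ?_⟩, fun a => ?_⟩
  · rintro (rfl | ⟨i, rfl | rfl⟩)
    · have h2 : (((1 : ℕ) : ℝ) * c) • e k ∈ Φ := by
        rw [F.mem]
        exact Or.inr ⟨one_ne_zero, k, Or.inl rfl⟩
      have h3 := h.sat.str _ h2 _ (hall k) 1 (by
        unfold co
        rw [inner_smul_left, inner_smul_right, inner_smul_left, inner_smul_right, F.inner_e, if_pos rfl]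
        simp only [conj_trivial]
        push_cast
        field_simp
        norm_num)
      rw [Nat.cast_one, one_mul, one_smul, sub_self] at h3
      exact h3
    · exact hall i
    · exact h.sat.neg _ (hall i)
  · rw [F.mem a]
    constructor
    · rintro (⟨i, j, hij, h1⟩ | ⟨_, i, h1⟩)
      · exact Or.inr ⟨i, j, hij, h1⟩
      · rw [Nat.cast_one, one_mul] at h1
        exact Or.inl ⟨i, h1⟩
    · rintro (⟨i, h1⟩ | ⟨i, j, hij, h1⟩)
      · refine Or.inr ⟨by norm_num, i, ?_⟩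
        rw [Nat.cast_one, one_mul]
        exact h1
      · exact Or.inl ⟨i, j, hij, h1⟩

/-- the standard modules -/
theorem std14 (h : Dt Φ X n s l y v) (F : Fr Φ m e c d) (hm : 2 ≤ m) (h2 : d ≠ 1 → 3 ≤ m) (z : Fin m → ℤ)
    (hz : ∀ i, cx e c l i = z i) (h1 : |z ⟨0, by omega⟩| = 1) (hz0 : ∀ j : Fin m, (j : ℕ) ≠ 0 → z j = 0) :
    TypeB Φ X ∨ TypeD Φ X := by
  have hs : ∑ i, z i ^ 2 ≤ 1 := by
    rw [Finset.sum_eq_single ⟨0, by omega⟩]
    · rw [← sq_abs, h1]
      norm_num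
    · intro j _ hj
      rw [hz0 j fun h => hj (Fin.ext h)]
      norm_num
    · intro h
      exact absurd (Finset.mem_univ _) h
  by_cases hd : d = 1
  · subst hd
    exact Or.inl (stdB14 h.inn F hm z hz hs)
  · exact h.inn.standard43 F (h2 hd) z hz hs

/-- both integral -/
theorem caseI14 (h : Dt Φ X n s l y v) (F : Fr Φ m e c d) (S : Srt14 m d e v) (hm : 2 ≤ m) (h2 : d = 2 → 3 ≤ m)
    (h0 : d = 0 → 4 ≤ m) (z t : Fin m → ℤ) (hz : ∀ i, (inner ℝ l (e i) : ℝ) * (1 / c) = z i)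
    (ht : ∀ i, (inner ℝ y (e i) : ℝ) * c = t i) : TypeB Φ X ∨ TypeD Φ X ∨ Exc s (n - 2 * s) := by
  have hc := F.pos
  have hle := F.le
  have hlsp := TF.Sat.span27 h.wd.sat h.wd.l_mem
  have hzx : ∀ i, cx e c l i = z i := by
    intro i
    rw [← hz]
    unfold cx
    ring
  obtain ⟨hzd, hzp⟩ := dec_of14 F S h.wd.dom (by positivity : (0 : ℝ) < 1 / c) hz
  obtain ⟨htd, htp⟩ := dec_of14 F S h.ydom hc ht
  have hok : Ok14 z t := by
    by_cases hd : d = 0
    · exact Or.inr (h0 hd)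
    · exact Or.inl ⟨hzp hd, htp hd⟩
  have hsum : ∑ i, z i * t i = 1 := sum_of14 F hm hlsp h.ly hz ht (by
    push_cast
    field_simp)
  obtain ⟨hz0, ht0, hor⟩ := comb_one14 hm hzd htd hok hsum
  have h3 : d ≠ 1 → 3 ≤ m := by
    intro hd
    by_cases hd0 : d = 0
    · have := h0 hd0
      omega
    · exact h2 (by omega)
  have hz1 : |z ⟨0, by omega⟩| = 1 := by rw [hz0, abs_one]
  rcases hor with hj | hj
  · rcases std14 h F hm h3 z hzx hz1 hj with h4 | h4
    · exact Or.inl h4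
    · exact Or.inr (Or.inl h4)
  obtain ⟨K, hK1, hKm, hK⟩ := ones14 (by omega) hzd hz1
  by_cases hK2 : K = 1
  · subst hK2
    have hj' : ∀ j : Fin m, (j : ℕ) ≠ 0 → z j = 0 := by
      intro j hj0
      have h4 := hK j
      rw [if_neg (by omega)] at h4
      exact abs_eq_zero.1 h4
    rcases std14 h F hm h3 z hzx hz1 hj' with h4 | h4
    · exact Or.inl h4
    · exact Or.inr (Or.inl h4)
  right
  right
  have hK2' : 2 ≤ K := by omega
  have hcas := cas_ones14 F hm hlsp z hzx hKm hK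
  have hyy := norm_of14 F hm h.inn.y_mem ht
  have hsq : ∑ i, t i ^ 2 = 1 := by
    rw [Finset.sum_eq_single ⟨0, by omega⟩]
    · rw [ht0]
      norm_num
    · intro j _ hj'
      rw [hj j fun h => hj' (Fin.ext h)]
      norm_num
    · intro h
      exact absurd (Finset.mem_univ _) h
  rw [hsq, Int.cast_one] at hyy
  have hid := idt14 h F hm
  rw [hcas] at hid
  have hid2 : (n : ℝ) * (K * (2 * m + d - K)) = 2 * s * ((dm14 d m : ℕ) : ℝ) := by
    rw [← hid]
    linear_combination -(n : ℝ) * (K * (2 * m + d - K)) * hyy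
  have hdim := dim14 h F S z hzx
  have hcases : d = 0 ∨ d = 1 ∨ d = 2 := by omega
  rcases hcases with rfl | rfl | rfl
  · -- type `D`
    have hm4 := h0 rfl
    have hn := dimD hKm (by omega) z hK hzd.nonneg hdim
    refine q_so (N := 2 * m) (i := K) hK2' (by omega) (by omega) ?_ ?_
    · rw [← hn]
      by_cases hKe : K = m
      · rw [if_pos hKe, if_pos (by omega)]
      · rw [if_neg hKe, if_neg (by omega)]
    · unfold dm14 at hid2
      rw [if_pos rfl, Nat.cast_mul, Nat.cast_sub (by omega)] at hid2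
      have h5 : ((s * (2 * m * (2 * m - 1)) : ℕ) : ℝ) = ((n * (K * (2 * m - K)) : ℕ) : ℝ) := by
        rw [Nat.cast_mul s, Nat.cast_mul (2 * m) (2 * m - 1), Nat.cast_mul n, Nat.cast_mul K, Nat.cast_sub (by omega),
          Nat.cast_sub (by omega)]
        push_cast at hid2 ⊢
        linarith
      exact_mod_cast h5
  · -- type `B`
    have hx : ∀ j : Fin m, z j = if (j : ℕ) < K then 1 else 0 := by
      intro j
      rw [← hK j, abs_of_nonneg (hzp one_ne_zero j)]
    have hn := dimB hKm z hx hdim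
    refine q_so (N := 2 * m + 1) (i := K) hK2' (by omega) (by omega) ?_ ?_
    · rw [if_neg (by omega)]
      exact hn
    · unfold dm14 at hid2
      rw [if_neg one_ne_zero] at hid2
      have h5 : ((s * ((2 * m + 1) * (2 * m + 1 - 1)) : ℕ) : ℝ) = ((n * (K * (2 * m + 1 - K)) : ℕ) : ℝ) := by
        rw [Nat.cast_mul s, Nat.cast_mul (2 * m + 1) (2 * m + 1 - 1), Nat.cast_mul n, Nat.cast_mul K, Nat.cast_sub (by omega),
          Nat.cast_sub (by omega)]
        push_cast at hid2 ⊢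
        linarith
      exact_mod_cast h5
  · -- type `C`
    have hm3 := h2 rfl
    have hx : ∀ j : Fin m, z j = if (j : ℕ) < K then 1 else 0 := by
      intro j
      rw [← hK j, abs_of_nonneg (hzp two_ne_zero j)]
    obtain ⟨i, rfl⟩ : ∃ i, K = i + 2 := ⟨K - 2, by omega⟩
    have hn := dimC hKm z hx hdim
    have hsum1 : ∑ j : Fin m, z j = ((i + 2 : ℕ) : ℤ) := by
      have h5 : ∀ j : Fin m, z j = if (j : ℕ) < i + 2 then 1 else 0 := hx
      rw [Finset.sum_congr rfl fun j _ => h5 j, Finset.sum_boole]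
      congr 1
      rcases Nat.eq_or_lt_of_le hKm with h6 | h6
      · subst h6
        rw [Finset.filter_true_of_mem fun j _ => j.2, Finset.card_univ, Fintype.card_fin]
      · have h7 : (Finset.univ.filter fun j : Fin m => (j : ℕ) < i + 2) = Finset.Iio ⟨i + 2, h6⟩ := by
          ext a
          simp [Fin.lt_def]
        rw [h7, Fin.card_Iio]
    have heven : Even i := by
      obtain ⟨k, hk⟩ := h.par
      rw [sum_co14 F S l, if_neg two_ne_zero] at hk
      have h5 : ((∑ j : Fin m, ((m : ℤ) - 1 - (j : ℕ)) * (2 * z j) + ∑ j : Fin m, z j : ℤ) : ℝ) = ((2 * k : ℤ) : ℝ) := by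
        push_cast at hk ⊢
        rw [← hk]
        simp only [hzx]
        congr 1
        refine Finset.sum_congr rfl fun j _ => ?_
        ring
      have h6 : ∑ j : Fin m, ((m : ℤ) - 1 - (j : ℕ)) * (2 * z j) + ∑ j : Fin m, z j = 2 * k := by exact_mod_cast h5
      rw [hsum1] at h6
      have h7 : ∑ j : Fin m, ((m : ℤ) - 1 - (j : ℕ)) * (2 * z j) = 2 * ∑ j : Fin m, ((m : ℤ) - 1 - (j : ℕ)) * z j := by
        rw [Finset.mul_sum]
        refine Finset.sum_congr rfl fun j _ => ?_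
        ring
      rw [h7] at h6
      have h8 : Even ((i : ℤ)) := by
        refine ⟨k - ∑ j : Fin m, ((m : ℤ) - 1 - (j : ℕ)) * z j - 1, ?_⟩
        push_cast at h6
        linarith
      exact_mod_cast h8
    refine q_sp hm3 heven hKm hn ?_
    unfold dm14 at hid2
    rw [if_neg two_ne_zero] at hid2
    have h5 : ((s * (2 * m * (2 * m + 1)) : ℕ) : ℝ) = ((n * ((i + 2) * (2 * m - i)) : ℕ) : ℝ) := by
      rw [Nat.cast_mul, Nat.cast_mul, Nat.cast_mul n, Nat.cast_mul (i + 2), Nat.cast_sub (by omega)]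
      push_cast at hid2 ⊢
      linarith
    exact_mod_cast h5

/-- `l` integral, `y` half odd -/
theorem caseII14 (h : Dt Φ X n s l y v) (F : Fr Φ m e c d) (S : Srt14 m d e v) (hd : d = 0 ∧ 5 ≤ m ∨ d = 2 ∧ 3 ≤ m)
    (z t : Fin m → ℤ) (hz : ∀ i, (inner ℝ l (e i) : ℝ) * (1 / c) = z i)
    (ht : ∀ i, (inner ℝ y (e i) : ℝ) * (2 * c) = t i) (hodd : ∀ i, Odd (t i)) : Exc s (n - 2 * s) := by
  have hc := F.pos
  have hm : 2 ≤ m := by omega
  have hlsp := TF.Sat.span27 h.wd.sat h.wd.l_mem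
  have hzx : ∀ i, cx e c l i = z i := by
    intro i
    rw [← hz]
    unfold cx
    ring
  obtain ⟨hzd, hzp⟩ := dec_of14 F S h.wd.dom (by positivity : (0 : ℝ) < 1 / c) hz
  obtain ⟨htd, htp⟩ := dec_of14 F S h.ydom (by positivity : (0 : ℝ) < 2 * c) ht
  have hok : Ok14 z t := by
    by_cases hd0 : d = 0
    · exact Or.inr (by omega)
    · exact Or.inl ⟨hzp hd0, htp hd0⟩
  have hsum : ∑ i, z i * t i = 2 := sum_of14 F hm hlsp h.ly hz ht (by
    push_cast
    field_simp)
  obtain ⟨ht1, hor⟩ := comb_two14 hm hzd htd hok hodd hsum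
  have hyy := norm_of14 F hm h.inn.y_mem ht
  have hsq : ∑ i, t i ^ 2 = m := by
    rw [Finset.sum_congr rfl fun i _ => by rw [← sq_abs, ht1 i, one_pow], Finset.sum_const, Finset.card_univ, Fintype.card_fin,
      nsmul_eq_mul, mul_one]
  rw [hsq, Int.cast_natCast] at hyy
  have hid := idt14 h F hm
  have hdim := dim14 h F S z hzx
  have hmr : (0 : ℝ) < m := by
    have : 0 < m := by omega
    exact_mod_cast this
  have hs2 := h.h_pos
  -- clause 8
  have hfin : ∀ r : ℕ, 3 ≤ r → (2 * s = r * (r - 1) ∨ 2 * s = r * (r + 1)) → (n - 2 * s = r ^ 2 ∨ n - 2 * s + 1 = r ^ 2) →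
      Exc s (n - 2 * s) := by
    intro r h1 h2 h3
    exact Or.inr (Or.inr (Or.inr (Or.inr (Or.inr (Or.inr (Or.inr (Or.inl ⟨r, h1, h2, h3⟩)))))))
  rcases hor with hA | hB | ⟨hm4, ⟨i, hi⟩, -⟩
  · -- `l = 2 e_1`
    have hcas := F.cas_two43 hm hlsp z hzx (k := ⟨0, by omega⟩) (by rw [hA, if_pos rfl]; norm_num) (by
      intro j hj
      rw [hA j, if_neg fun h => hj (Fin.ext h)])
    rw [hcas] at hid
    have hid2 : (n : ℝ) * (m * (m + d / 2)) = 2 * s * ((dm14 d m : ℕ) : ℝ) := by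
      rw [← hid]
      linear_combination -(n : ℝ) * (m + d / 2) * hyy
    rcases hd with ⟨rfl, hm5⟩ | ⟨rfl, hm3⟩
    · have hn := dim2 hm (Or.inl rfl) z hA hdim
      rw [if_pos rfl] at hn
      unfold dm14 at hid2
      rw [if_pos rfl] at hid2
      obtain ⟨q, rfl⟩ : ∃ q, m = q + 1 := ⟨m - 1, by omega⟩
      rw [show 2 * (q + 1) - 1 = 2 * q + 1 by omega] at hn hid2
      have h5 : ((n * (q + 1) : ℕ) : ℝ) = ((2 * s * (2 * q + 1) : ℕ) : ℝ) := by
        push_cast at hid2 hmr ⊢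
        refine mul_left_cancel₀ hmr.ne' ?_
        linarith
      have h6 : n * (q + 1) = 2 * s * (2 * q + 1) := by exact_mod_cast h5
      have h7 : 2 * s = (q + 1) * (q + 1 + 1) := by
        rw [hn] at h6
        refine Nat.eq_of_mul_eq_mul_right (show 0 < 2 * q + 1 by omega) ?_
        rw [← h6]
        ring
      refine hfin (q + 1) (by omega) (Or.inr h7) (Or.inr ?_)
      have h8 : n = 2 * s + q * (q + 2) := by
        rw [h7, hn]
        ring
      rw [h8, Nat.add_sub_cancel_left]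
      ring
    · have hn := dim2 hm (Or.inr rfl) z hA hdim
      rw [if_neg two_ne_zero] at hn
      unfold dm14 at hid2
      rw [if_neg two_ne_zero] at hid2
      have h5 : ((n * (m + 1) : ℕ) : ℝ) = ((2 * s * (2 * m + 1) : ℕ) : ℝ) := by
        push_cast at hid2 ⊢
        refine mul_left_cancel₀ hmr.ne' ?_
        linarith
      have h6 : n * (m + 1) = 2 * s * (2 * m + 1) := by exact_mod_cast h5
      have h7 : 2 * s = m * (m + 1) := by
        rw [hn] at h6
        refine Nat.eq_of_mul_eq_mul_right (show 0 < 2 * m + 1 by omega) ?_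
        rw [← h6]
        ring
      refine hfin m hm3 (Or.inr h7) (Or.inl ?_)
      have h8 : n = 2 * s + m ^ 2 := by
        rw [h7, hn]
        ring
      rw [h8, Nat.add_sub_cancel_left]
  · -- `l = e_1 + e_2`
    have hK : ∀ j : Fin m, |z j| = if (j : ℕ) < 2 then 1 else 0 := by
      intro j
      rw [hB j]
      split_ifs <;> norm_num
    have hcas := cas_ones14 F hm hlsp z hzx (K := 2) (by omega) hK
    rw [hcas] at hid
    have hid2 : (n : ℝ) * (m * (m + d / 2 - 1)) = 2 * s * ((dm14 d m : ℕ) : ℝ) := by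
      rw [← hid]
      push_cast
      linear_combination -(n : ℝ) * (m + d / 2 - 1) * hyy
    rcases hd with ⟨rfl, hm5⟩ | ⟨rfl, hm3⟩
    · have hn := dimD (i := 2) (by omega) (by omega) z hK hzd.nonneg hdim
      rw [if_neg (by omega), Nat.choose_two_right] at hn
      unfold dm14 at hid2
      rw [if_pos rfl] at hid2
      obtain ⟨q, rfl⟩ : ∃ q, m = q + 1 := ⟨m - 1, by omega⟩
      rw [show 2 * (q + 1) - 1 = 2 * q + 1 by omega] at hn hid2
      have hn' : n = (q + 1) * (2 * q + 1) := by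
        rw [hn, show 2 * (q + 1) * (2 * q + 1) = 2 * ((q + 1) * (2 * q + 1)) by ring, Nat.mul_div_cancel_left _ (by norm_num)]
      have h5 : ((n * q : ℕ) : ℝ) = ((2 * s * (2 * q + 1) : ℕ) : ℝ) := by
        push_cast at hid2 hmr ⊢
        refine mul_left_cancel₀ hmr.ne' ?_
        linarith
      have h6 : n * q = 2 * s * (2 * q + 1) := by exact_mod_cast h5
      have h7 : 2 * s = (q + 1) * (q + 1 - 1) := by
        rw [Nat.add_sub_cancel]
        rw [hn'] at h6
        refine Nat.eq_of_mul_eq_mul_right (show 0 < 2 * q + 1 by omega) ?_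
        rw [← h6]
        ring
      refine hfin (q + 1) (by omega) (Or.inl h7) (Or.inl ?_)
      have h8 : n = 2 * s + (q + 1) ^ 2 := by
        rw [h7, hn', Nat.add_sub_cancel]
        ring
      rw [h8, Nat.add_sub_cancel_left]
    · have hn := dimC (i := 0) (by omega) z hB hdim
      rw [Nat.choose_zero_right, Nat.choose_two_right] at hn
      unfold dm14 at hid2
      rw [if_neg two_ne_zero] at hid2
      obtain ⟨q, rfl⟩ : ∃ q, m = q + 1 := ⟨m - 1, by omega⟩
      rw [show 2 * (q + 1) - 1 = 2 * q + 1 by omega, show 2 * (q + 1) * (2 * q + 1) = 2 * ((q + 1) * (2 * q + 1)) by ring,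
        Nat.mul_div_cancel_left _ (by norm_num)] at hn
      have hn' : n = q * (2 * q + 3) := by
        have : n + 1 = q * (2 * q + 3) + 1 := by rw [hn]; ring
        omega
      have h5 : ((n * (q + 1) : ℕ) : ℝ) = ((2 * s * (2 * (q + 1) + 1) : ℕ) : ℝ) := by
        push_cast at hid2 hmr ⊢
        refine mul_left_cancel₀ hmr.ne' ?_
        linarith
      have h6 : n * (q + 1) = 2 * s * (2 * (q + 1) + 1) := by exact_mod_cast h5
      have h7 : 2 * s = (q + 1) * (q + 1 - 1) := by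
        rw [Nat.add_sub_cancel]
        rw [hn'] at h6
        refine Nat.eq_of_mul_eq_mul_right (show 0 < 2 * (q + 1) + 1 by omega) ?_
        rw [← h6]
        ring
      refine hfin (q + 1) (by omega) (Or.inl h7) (Or.inr ?_)
      have h8 : n = 2 * s + q * (q + 2) := by
        rw [h7, hn', Nat.add_sub_cancel]
        ring
      rw [h8, Nat.add_sub_cancel_left]
      ring
  · exfalso
    rcases hd with ⟨-, hm5⟩ | ⟨hd2, -⟩
    · omega
    · have hd0 : d ≠ 0 := by omega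
      exact absurd (mul_nonneg (hzp hd0 i) (htp hd0 i)) (not_le.2 hi)

/-- `l` half odd, `y` integral -/
theorem caseIII14 (h : Dt Φ X n s l y v) (F : Fr Φ m e c d) (S : Srt14 m d e v) (hm : 2 ≤ m) (hd : d = 0 ∧ 4 ≤ m ∨ d = 1)
    (z t : Fin m → ℤ) (hz : ∀ i, (inner ℝ l (e i) : ℝ) * (2 / c) = z i)
    (ht : ∀ i, (inner ℝ y (e i) : ℝ) * c = t i) (hodd : ∀ i, Odd (z i)) : Exc s (n - 2 * s) := by
  have hc := F.pos
  have hlsp := TF.Sat.span27 h.wd.sat h.wd.l_mem
  have hzx : ∀ i, 2 * cx e c l i = z i := by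
    intro i
    rw [← hz]
    unfold cx
    ring
  obtain ⟨hzd, hzp⟩ := dec_of14 F S h.wd.dom (by positivity : (0 : ℝ) < 2 / c) hz
  obtain ⟨htd, htp⟩ := dec_of14 F S h.ydom hc ht
  have hok : Ok14 t z := by
    by_cases hd0 : d = 0
    · exact Or.inr (by omega)
    · exact Or.inl ⟨htp hd0, hzp hd0⟩
  have hsum : ∑ i, t i * z i = 2 := by
    rw [Finset.sum_congr rfl fun i _ => mul_comm (t i) (z i)]
    exact sum_of14 F hm hlsp h.ly hz ht (by
      push_cast
      field_simp)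
  obtain ⟨hz1, hor⟩ := comb_two14 hm htd hzd hok hodd hsum
  have hyy := norm_of14 F hm h.inn.y_mem ht
  have hcas := cas_half14 F hm hlsp z hzx hz1
  have hid := idt14 h F hm
  have hcas' : cas Φ l = c ^ 2 * (((dm14 d m : ℕ) : ℝ) / 4) := by
    rw [hcas]
    unfold dm14
    rcases hd with ⟨rfl, hm4⟩ | rfl
    · rw [if_pos rfl, Nat.cast_mul, Nat.cast_sub (by omega)]
      push_cast
      ring
    · rw [if_neg one_ne_zero]
      push_cast
      ring
  have hdm : (0 : ℝ) < ((dm14 d m : ℕ) : ℝ) := by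
    have : 0 < dm14 d m := by
      unfold dm14
      split_ifs
      · exact Nat.mul_pos (by omega) (by omega)
      · positivity
    exact_mod_cast this
  rw [hcas'] at hid
  have hid2 : (n : ℝ) * ((∑ i, t i ^ 2 : ℤ) : ℝ) = 8 * s := by
    rw [← hyy]
    refine mul_left_cancel₀ hdm.ne' ?_
    linear_combination 4 * hid
  have hpos := h.h_pos
  rcases hor with hA | hB | ⟨hm4, -, hC⟩
  · -- the square length four
    exfalso
    have hsq : ∑ i, t i ^ 2 = 4 := by
      rw [Finset.sum_eq_single ⟨0, by omega⟩]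
      · rw [hA, if_pos rfl]
        norm_num
      · intro j _ hj
        rw [hA j, if_neg fun h => hj (Fin.ext h)]
        norm_num
      · intro h
        exact absurd (Finset.mem_univ _) h
    rw [hsq] at hid2
    have h5 : ((n * 4 : ℕ) : ℝ) = ((8 * s : ℕ) : ℝ) := by
      push_cast at hid2 ⊢
      exact hid2
    have h6 : n * 4 = 8 * s := by exact_mod_cast h5
    omega
  · have hsq : ∑ i, t i ^ 2 = 2 := by
      have h5 : ∀ i ∈ (Finset.univ : Finset (Fin m)), t i ^ 2 = if (i : ℕ) < 2 then 1 else 0 := by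
        intro i _
        rw [hB i]
        split_ifs <;> norm_num
      rw [Finset.sum_congr rfl h5, Finset.sum_boole]
      have h6 : (Finset.univ.filter fun j : Fin m => (j : ℕ) < 2) = {⟨0, by omega⟩, ⟨1, by omega⟩} := by
        ext a
        simp only [Finset.mem_filter, Finset.mem_univ, true_and, Finset.mem_insert, Finset.mem_singleton, Fin.ext_iff]
        omega
      rw [h6, Finset.card_pair (by
        intro h
        rw [Fin.mk.injEq] at h
        omega)]
      rfl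
    rw [hsq] at hid2
    have h5 : ((n * 2 : ℕ) : ℝ) = ((8 * s : ℕ) : ℝ) := by
      push_cast at hid2 ⊢
      exact hid2
    have h6 : n * 2 = 8 * s := by exact_mod_cast h5
    left
    omega
  · exfalso
    have hsq : ∑ i, t i ^ 2 = 4 := by
      rw [Finset.sum_congr rfl fun i _ => by rw [← sq_abs, hC i, one_pow], Finset.sum_const, Finset.card_univ,
        Fintype.card_fin, nsmul_eq_mul, mul_one, hm4]
      rfl
    rw [hsq] at hid2
    have h5 : ((n * 4 : ℕ) : ℝ) = ((8 * s : ℕ) : ℝ) := by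
      push_cast at hid2 ⊢
      exact hid2
    have h6 : n * 4 = 8 * s := by exact_mod_cast h5
    omega

/-- both half odd -/
theorem caseIV14 (h : Dt Φ X n s l y v) (F : Fr Φ m e c 0) (S : Srt14 m 0 e v) (hm : 5 ≤ m)
    (z t : Fin m → ℤ) (hz : ∀ i, (inner ℝ l (e i) : ℝ) * (2 / c) = z i)
    (ht : ∀ i, (inner ℝ y (e i) : ℝ) * (2 * c) = t i) (hoz : ∀ i, Odd (z i)) (hot : ∀ i, Odd (t i)) : False := by
  have hc := F.pos
  have hlsp := TF.Sat.span27 h.wd.sat h.wd.l_mem
  obtain ⟨hzd, hzp⟩ := dec_of14 F S h.wd.dom (by positivity : (0 : ℝ) < 2 / c) hz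
  obtain ⟨htd, htp⟩ := dec_of14 F S h.ydom (by positivity : (0 : ℝ) < 2 * c) ht
  have hsum : ∑ i, z i * t i = 4 := sum_of14 F (by omega) hlsp h.ly hz ht (by
    push_cast
    field_simp
    norm_num)
  obtain ⟨hm6, hz1⟩ := comb_four14 hm hzd htd hoz hot hsum
  subst hm6
  obtain ⟨k, hk⟩ := h.par
  rw [sum_co14 F S l, if_pos rfl, add_zero] at hk
  have hzx : ∀ i, 2 * cx e c l i = z i := by
    intro i
    rw [← hz]
    unfold cx
    ring
  simp only [hzx] at hk
  have hone : ∀ i : Fin 6, (i : ℕ) + 1 < 6 → z i = 1 := by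
    intro i hi
    rw [← hz1 i, abs_of_nonneg (hzd.nonneg i hi)]
  rw [Fin.sum_univ_six, hone 0 (by decide), hone 1 (by decide), hone 2 (by decide), hone 3 (by decide), hone 4 (by decide)] at hk
  have h5 : ((15 : ℤ) : ℝ) = ((2 * k : ℤ) : ℝ) := by
    push_cast
    rw [← hk]
    norm_num
  have h6 : (15 : ℤ) = 2 * k := by exact_mod_cast h5
  omega

/-- the ordered frame -/
theorem sorted14 (h : Dt Φ X n s l y v) (F : Fr Φ m e c d) (S : Srt14 m d e v) (hm : 2 ≤ m) (h2 : d = 2 → 3 ≤ m)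
    (h0 : d = 0 → 4 ≤ m) (hrot : d = 0 → m = 4 → ∀ i, ∃ k : ℤ, (inner ℝ y (e i) : ℝ) * c = k) :
    TypeB Φ X ∨ TypeD Φ X ∨ Exc s (n - 2 * s) := by
  have hc := F.pos
  have hle := F.le
  obtain ⟨T', hT, hTp, hT1⟩ := y_int14 h.inn F hm
  obtain ⟨Z, hZ, hZp, hZ2⟩ := l_int14 h.wd.sat h.wd.l_mem F hm
  have hz' : ∀ z : Fin m → ℤ, (∀ i, Z i = 2 * z i) → ∀ i, (inner ℝ l (e i) : ℝ) * (1 / c) = z i := by
    intro z hz i
    have h3 := hZ i
    rw [hz i] at h3
    push_cast at h3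
    have h4 : (inner ℝ l (e i) : ℝ) * (2 / c) = 2 * ((inner ℝ l (e i) : ℝ) * (1 / c)) := by ring
    rw [h4] at h3
    exact mul_left_cancel₀ two_ne_zero h3
  have ht' : ∀ t : Fin m → ℤ, (∀ i, T' i = 2 * t i) → ∀ i, (inner ℝ y (e i) : ℝ) * c = t i := by
    intro t ht i
    have h3 := hT i
    rw [ht i] at h3
    push_cast at h3
    linarith
  have hne : ∀ i : Fin m, d = 0 → m = 4 → ¬ Odd (T' i) := by
    intro i hd hm4 ho
    obtain ⟨k, hk⟩ := hrot hd hm4 i
    have h3 : ((T' i : ℤ) : ℝ) = ((2 * k : ℤ) : ℝ) := by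
      rw [← hT i]
      push_cast
      linarith
    have h4 : T' i = 2 * k := by exact_mod_cast h3
    rw [h4] at ho
    exact (Int.not_odd_iff_even.2 (even_two_mul k)) ho
  rcases even_or_odd14 Z hZp (by omega) with ⟨z, hz⟩ | hZo <;> rcases even_or_odd14 T' hTp (by omega) with ⟨t, ht⟩ | hTo
  · exact caseI14 h F S hm h2 h0 z t (hz' z hz) (ht' t ht)
  · have hd : d = 0 ∧ 5 ≤ m ∨ d = 2 ∧ 3 ≤ m := by
      have hcases : d = 0 ∨ d = 1 ∨ d = 2 := by omega
      rcases hcases with hd | hd | hd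
      · left
        refine ⟨hd, ?_⟩
        by_contra hcon
        have := h0 hd
        exact hne ⟨0, by omega⟩ hd (by omega) (hTo _)
      · exfalso
        exact (Int.not_even_iff_odd.2 (hTo ⟨0, by omega⟩)) (hT1 hd _)
      · exact Or.inr ⟨hd, h2 hd⟩
    exact Or.inr (Or.inr (caseII14 h F S hd z T' (hz' z hz) hT hTo))
  · have hd : d = 0 ∧ 4 ≤ m ∨ d = 1 := by
      have hcases : d = 0 ∨ d = 1 ∨ d = 2 := by omega
      rcases hcases with hd | hd | hd
      · exact Or.inl ⟨hd, h0 hd⟩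
      · exact Or.inr hd
      · exfalso
        exact (Int.not_even_iff_odd.2 (hZo ⟨0, by omega⟩)) (hZ2 hd _)
    exact Or.inr (Or.inr (caseIII14 h F S hm hd Z t hZ (ht' t ht) hZo))
  · exfalso
    have hcases : d = 0 ∨ d = 1 ∨ d = 2 := by omega
    rcases hcases with hd | hd | hd
    · have hm5 : 5 ≤ m := by
        by_contra hcon
        have := h0 hd
        exact hne ⟨0, by omega⟩ hd (by omega) (hTo _)
      subst hd
      exact caseIV14 h F S hm5 Z T' hZ hT hZo hTo
    · exact (Int.not_even_iff_odd.2 (hTo ⟨0, by omega⟩)) (hT1 hd _)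
    · exact (Int.not_even_iff_odd.2 (hZo ⟨0, by omega⟩)) (hZ2 hd _)

/-- rank one: the dimension is at most three -/
theorem rank_one14 {e : Fin 1 → E} (h : Dt Φ X n s l y v) (F : Fr Φ 1 e c 1) : n ≤ 3 := by
  obtain ⟨e', F', S', -⟩ := sorted_frame14 h.wd F
  have hc := F'.pos
  set k : ℝ := cx e' c l 0 with hk
  have hle : (inner ℝ l (e' 0) : ℝ) = c * k := by
    rw [hk]
    unfold cx
    field_simp
  obtain ⟨-, hpos, h1, -⟩ := dim_frR_sorted43 h.wd F' S'.lt S'.nn S'.pos (k := fun _ => k) (by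
    intro i
    rw [Subsingleton.elim i 0]
    exact hle)
  have hP : ∀ x : Fin 1 → ℝ, PdR 1 1 x = 2 * x 0 + 1 := by
    intro x
    unfold PdR Vd
    simp
  rw [hP, hP] at h1
  simp only [Pi.zero_apply, mul_zero, zero_add, mul_one] at h1
  -- the level
  obtain ⟨t, ht⟩ := h.inn.lev _ ((F'.mem _).2 (Or.inr ⟨one_ne_zero, 0, Or.inl rfl⟩))
  rw [Nat.cast_one, one_mul, inner_smul_left] at ht
  simp only [conj_trivial] at ht
  have hlsp := TF.Sat.span27 h.wd.sat h.wd.l_mem
  have hsub : Submodule.span ℝ (Φ : Set E) ≤ Submodule.span ℝ {e' 0} := by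
    rw [Submodule.span_le]
    intro a ha
    rcases (F'.mem a).1 ha with ⟨i, j, hij, -⟩ | ⟨_, i, h3⟩
    · exact absurd (Subsingleton.elim i j) hij
    · rw [Subsingleton.elim i 0] at h3
      have h4 : e' 0 ∈ Submodule.span ℝ {e' 0} := Submodule.mem_span_singleton_self _
      rcases h3 with rfl | rfl
      · exact Submodule.smul_mem _ _ h4
      · exact Submodule.neg_mem _ (Submodule.smul_mem _ _ h4)
  obtain ⟨r, hr⟩ := Submodule.mem_span_singleton.1 (hsub hlsp)
  have hr2 : r = c * k := by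
    rw [← hle, ← hr, inner_smul_left, F'.inner_e, if_pos rfl]
    simp
  have hly := h.ly
  rw [← hr, inner_smul_left] at hly
  simp only [conj_trivial] at hly
  have hkt : k * t = 1 := by
    rw [← ht, ← hly, hr2]
    ring
  have hk0 : 0 ≤ k := hpos one_ne_zero 0
  have ht0 : 0 < (t : ℝ) := by
    by_contra hcon
    push Not at hcon
    have := mul_nonneg_of_nonpos_of_nonpos (neg_nonpos.2 hk0) hcon
    linarith
  have ht1 : (1 : ℝ) ≤ t := by
    have h3 : 0 < t := by exact_mod_cast ht0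
    exact_mod_cast h3
  have hk1 : k ≤ 1 := by nlinarith
  have h3 : (n : ℝ) ≤ ((3 : ℕ) : ℝ) := by
    rw [h1]
    push_cast
    linarith
  exact_mod_cast h3

/-- **BLOCK BCD** -/
theorem typeBCD {e : Fin m → E} (h : Dt Φ X n s l y v) (F : Fr Φ m e c d) (h1 : 1 ≤ m) (h2 : d = 2 → 3 ≤ m)
    (h0 : d = 0 → 4 ≤ m) (h5 : 5 ≤ n) : TypeB Φ X ∨ TypeD Φ X ∨ Exc s (n - 2 * s) := by
  have hle := F.le
  by_cases hm1 : m = 1
  · exfalso
    have hd : d = 1 := by
      have hcases : d = 0 ∨ d = 1 ∨ d = 2 := by omega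
      rcases hcases with hd | hd | hd
      · have := h0 hd
        omega
      · exact hd
      · have := h2 hd
        omega
    subst hm1
    subst hd
    have := rank_one14 h F
    omega
  have hm : 2 ≤ m := by omega
  -- for `D_4` the coordinates of `y` are integral
  obtain ⟨e1, F1, h3⟩ : ∃ e1 : Fin m → E, Fr Φ m e1 c d ∧
      (d = 0 → m = 4 → ∀ i, ∃ k : ℤ, (inner ℝ y (e1 i) : ℝ) * c = k) := by
    by_cases hd : d = 0 ∧ m = 4
    · obtain ⟨rfl, rfl⟩ := hd
      obtain ⟨e1, F1, h3⟩ := rot_exists14 h.inn F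
      exact ⟨e1, F1, fun _ _ => h3⟩
    · exact ⟨e, F, fun h6 h7 => absurd ⟨h6, h7⟩ hd⟩
  obtain ⟨e2, F2, S2, σ, t, ht, he⟩ := sorted_frame14 h.wd F1
  refine sorted14 h F2 S2 hm h2 h0 ?_
  intro hd hm4 i
  obtain ⟨k, hk⟩ := h3 hd hm4 (σ i)
  rw [he i, inner_smul_right]
  rcases ht i with h6 | h6
  · exact ⟨k, by rw [h6, one_mul, hk]⟩
  · exact ⟨-k, by rw [h6, mul_assoc, hk]; push_cast; ring⟩

end

end LT
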