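import Pool.Agent.Helper43.PW.DimR

/-!
Project LT (MP_b8862a_ag): Weyl's product for the fundamental weights of the types `B`, `C`, `D`.
-/

set_option linter.unusedSectionVars false
set_option linter.unusedVariables false

open Finset PF TF PW

namespace LT

theorem vand_ite14 {m : ℕ} (g : Fin m → Fin m → ℝ) :
    ∏ i, ∏ j ∈ Finset.Ioi i, g i j = ∏ i, ∏ j, (if i < j then g i j else 1) := by
  refine prod_congr rfl fun i _ => ?_
  rw [← prod_filter]
  refine prod_congr ?_ fun _ _ => rfl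
  ext j
  simp

/-- the Vandermonde product with one index removed -/
theorem vand_remove14 {m : ℕ} (g : Fin (m + 1) → Fin (m + 1) → ℝ) (K : Fin (m + 1)) :
    ∏ i, ∏ j ∈ Finset.Ioi i, g i j = (∏ i : Fin m, ∏ j ∈ Finset.Ioi i, g (K.succAbove i) (K.succAbove j)) *
      ∏ i : Fin m, (if K.succAbove i < K then g (K.succAbove i) K else g K (K.succAbove i)) := by
  rw [vand_ite14, vand_ite14 (fun i j => g (K.succAbove i) (K.succAbove j)), Fin.prod_univ_succAbove _ K,
    Fin.prod_univ_succAbove _ K]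
  rw [if_neg (lt_irrefl K), one_mul]
  have h1 : ∀ i : Fin m, ∏ j, (if K.succAbove i < j then g (K.succAbove i) j else 1) =
      (if K.succAbove i < K then g (K.succAbove i) K else 1) *
        ∏ j : Fin m, (if i < j then g (K.succAbove i) (K.succAbove j) else 1) := by
    intro i
    rw [Fin.prod_univ_succAbove _ K]
    congr 1
    refine prod_congr rfl fun j _ => ?_
    simp only [Fin.succAbove_lt_succAbove_iff]
  simp only [h1]
  rw [prod_mul_distrib, ← mul_assoc, mul_comm, ← prod_mul_distrib]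
  congr 1
  refine prod_congr rfl fun i _ => ?_
  have hne : K.succAbove i ≠ K := Fin.succAbove_ne K i
  rcases lt_or_gt_of_ne hne with h | h
  · rw [if_neg (not_lt.2 h.le), if_pos h, if_pos h, one_mul]
  · rw [if_pos h, if_neg (not_lt.2 h.le), if_neg (not_lt.2 h.le), mul_one]

/-- a product over all indices but one -/
theorem prod_remove14 {m K : ℕ} (hK : K ≤ m) (G : ℕ → ℝ) (f : Fin (m + 1) → ℝ)
    (hf : ∀ j : Fin (m + 1), j.val ≠ K → f j = G j.val) :
    ∏ i : Fin m, f ((⟨K, by omega⟩ : Fin (m + 1)).succAbove i) = (∏ j ∈ range K, G j) * ∏ j ∈ range (m - K), G (K + 1 + j) := by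
  classical
  set K' : Fin (m + 1) := ⟨K, by omega⟩ with hK'
  have h1 : ∏ j : Fin (m + 1), (if j = K' then (1 : ℝ) else f j) = ∏ i : Fin m, f (K'.succAbove i) := by
    rw [Fin.prod_univ_succAbove _ K', if_pos rfl, one_mul]
    refine prod_congr rfl fun i _ => ?_
    rw [if_neg (Fin.succAbove_ne K' i)]
  have h2 : ∏ j : Fin (m + 1), (if j = K' then (1 : ℝ) else f j) = ∏ j ∈ range (m + 1), (if j = K then (1 : ℝ) else G j) := by
    rw [prod_range]
    refine prod_congr rfl fun j _ => ?_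
    by_cases h : j = K'
    · rw [if_pos h, if_pos (by rw [h])]
    · have h' : j.val ≠ K := fun h3 => h (Fin.ext h3)
      rw [if_neg h, if_neg h', hf j h']
  rw [← h1, h2]
  obtain ⟨r, hr⟩ : ∃ r, m = K + r := ⟨m - K, by omega⟩
  rw [show m + 1 = K + (r + 1) by omega, prod_range_add, prod_range_succ', show m - K = r by omega]
  rw [add_zero, if_pos rfl, mul_one]
  congr 1
  · refine prod_congr rfl fun j hj => ?_
    rw [if_neg (by have := mem_range.1 hj; omega)]
  · refine prod_congr rfl fun j hj => ?_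
    rw [if_neg (by omega), show K + (j + 1) = K + 1 + j by omega]

/-- the coordinates `(1^K, 0, …, 0)` -/
def box14 (m K : ℕ) (i : Fin m) : ℝ := if i.val < K then 1 else 0

/-- the factor of the index `K` -/
def fac14 (d m K : ℕ) : ℕ := 4 ^ m * (K.factorial * (m - K).factorial *
  ((2 * m + d - K).descFactorial K * (2 * m + d - 2 * K - 1).descFactorial (m - K)))

theorem fac_eq14 (d m K : ℕ) (hK : K ≤ m) :
    (∏ j ∈ range K, 4 * (((K : ℝ) - j) * (2 * m + d - j - K))) *
      ∏ j ∈ range (m - K), 4 * (((j : ℝ) + 1) * (2 * m + d - (K + 1 + j) - K)) = (fac14 d m K : ℕ) := by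
  have h1 : ∏ j ∈ range K, 4 * (((K : ℝ) - j) * (2 * m + d - j - K)) =
      ((4 ^ K * (K.factorial * (2 * m + d - K).descFactorial K) : ℕ) : ℝ) := by
    rw [← Nat.descFactorial_self K, Nat.descFactorial_eq_prod_range, Nat.descFactorial_eq_prod_range,
      ← prod_mul_distrib]
    have : (4 : ℕ) ^ K = ∏ _j ∈ range K, 4 := by rw [prod_const, card_range]
    rw [this, ← prod_mul_distrib, Nat.cast_prod]
    refine prod_congr rfl fun j hj => ?_
    have hj' := mem_range.1 hj
    rw [Nat.cast_mul, Nat.cast_mul, Nat.cast_sub (by omega), Nat.cast_sub (by omega), Nat.cast_sub (by omega)]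
    push_cast
    ring
  have h2 : ∏ j ∈ range (m - K), 4 * (((j : ℝ) + 1) * (2 * m + d - (K + 1 + j) - K)) =
      ((4 ^ (m - K) * ((m - K).factorial * (2 * m + d - 2 * K - 1).descFactorial (m - K)) : ℕ) : ℝ) := by
    rw [← prod_range_add_one_eq_factorial, Nat.descFactorial_eq_prod_range, ← prod_mul_distrib]
    have : (4 : ℕ) ^ (m - K) = ∏ _j ∈ range (m - K), 4 := by rw [prod_const, card_range]
    rw [this, ← prod_mul_distrib, Nat.cast_prod]
    refine prod_congr rfl fun j hj => ?_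
    have hj' := mem_range.1 hj
    rw [Nat.cast_mul, Nat.cast_mul, Nat.cast_sub (by omega), Nat.cast_sub (by omega), Nat.cast_sub (by omega)]
    push_cast
    ring
  rw [h1, h2, ← Nat.cast_mul]
  congr 1
  unfold fac14
  have : 4 ^ m = 4 ^ K * 4 ^ (m - K) := by rw [← pow_add, Nat.add_sub_cancel' hK]
  rw [this]
  ring

/-- Weyl's product at `(1^K, 0, …, 0)` -/
theorem PdR_box14 (d m K : ℕ) (hK : K ≤ m) :
    PdR d m (box14 m K) * (((fac14 d m K : ℕ) : ℝ) * (if d = 0 then (1 : ℝ) else 2 * (m : ℝ) + d - 2 * K)) =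
      (∏ i : Fin (m + 1), ∏ j ∈ Finset.Ioi i,
        ((2 * (m : ℝ) + d - 2 * (i.val : ℝ)) ^ 2 - (2 * (m : ℝ) + d - 2 * (j.val : ℝ)) ^ 2 : ℝ)) *
        (if d = 0 then (1 : ℝ) else ∏ i : Fin (m + 1), (2 * (m : ℝ) + d - 2 * (i.val : ℝ) : ℝ)) := by
  set K' : Fin (m + 1) := ⟨K, by omega⟩ with hK'
  have hKv : K'.val = K := rfl
  have ha : ∀ i : Fin m, 2 * box14 m K i + (Vd d m i : ℝ) = 2 * (m : ℝ) + d - 2 * ((K'.succAbove i).val : ℝ) := by
    intro i
    unfold box14 Vd
    by_cases h : i.val < K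
    · have h2 : K'.succAbove i = i.castSucc := by
        rw [Fin.succAbove_of_castSucc_lt]
        rw [Fin.lt_def]
        exact h
      rw [if_pos h, h2]
      push_cast
      simp only [Fin.val_castSucc]
      ring
    · have h2 : K'.succAbove i = i.succ := by
        rw [Fin.succAbove_of_le_castSucc]
        rw [Fin.le_def]
        exact not_lt.1 h
      rw [if_neg h, h2]
      simp only [Fin.val_succ]
      push_cast
      ring
  rw [vand_remove14 (fun i j => ((2 * (m : ℝ) + d - 2 * (i.val : ℝ)) ^ 2 - (2 * (m : ℝ) + d - 2 * (j.val : ℝ)) ^ 2 : ℝ)) K']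
  have hfac : ∏ i : Fin m, (if K'.succAbove i < K' then
      ((2 * (m : ℝ) + d - 2 * ((K'.succAbove i).val : ℝ)) ^ 2 - (2 * (m : ℝ) + d - 2 * (K'.val : ℝ)) ^ 2 : ℝ) else
      ((2 * (m : ℝ) + d - 2 * (K'.val : ℝ)) ^ 2 - (2 * (m : ℝ) + d - 2 * ((K'.succAbove i).val : ℝ)) ^ 2 : ℝ)) =
      ((fac14 d m K : ℕ) : ℝ) := by
    rw [← fac_eq14 d m K hK]
    have h5 := prod_remove14 (m := m) (K := K) hK
      (fun j => if j < K then 4 * (((K : ℝ) - (j : ℝ)) * (2 * (m : ℝ) + d - j - K)) else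
        4 * (((j : ℝ) - (K : ℝ)) * (2 * (m : ℝ) + d - j - K)))
      (fun j => if j < K' then ((2 * (m : ℝ) + d - 2 * (j.val : ℝ)) ^ 2 - (2 * (m : ℝ) + d - 2 * (K'.val : ℝ)) ^ 2 : ℝ) else
        ((2 * (m : ℝ) + d - 2 * (K'.val : ℝ)) ^ 2 - (2 * (m : ℝ) + d - 2 * (j.val : ℝ)) ^ 2 : ℝ)) (by
        intro j hj
        by_cases h : j.val < K
        · have h' : j < K' := by rw [Fin.lt_def]; exact h
          simp only [if_pos h, if_pos h', hKv]
          ring
        · have h' : ¬ j < K' := by rw [Fin.lt_def]; exact h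
          simp only [if_neg h, if_neg h', hKv]
          ring)
    rw [← hK'] at h5
    rw [h5]
    congr 1
    · refine prod_congr rfl fun j hj => ?_
      rw [if_pos (mem_range.1 hj)]
    · refine prod_congr rfl fun j hj => ?_
      rw [if_neg (by omega)]
      push_cast
      ring
  rw [hfac]
  unfold PdR
  simp only [ha]
  by_cases hd : d = 0
  · rw [if_pos hd, if_pos hd, if_pos hd]
    ring
  · rw [if_neg hd, if_neg hd, if_neg hd, Fin.prod_univ_succAbove _ K']
    simp only [hKv]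
    ring

/-- the dimension, in factorials -/
theorem dim_box14 {d m K n : ℕ} (hK : K ≤ m) (h : (n : ℝ) * PdR d m 0 = PdR d m (box14 m K)) (h0 : 0 < PdR d m 0) :
    (n : ℝ) * (((fac14 d m K : ℕ) : ℝ) * (if d = 0 then (1 : ℝ) else 2 * (m : ℝ) + d - 2 * K)) =
      ((fac14 d m 0 : ℕ) : ℝ) * (if d = 0 then (1 : ℝ) else 2 * (m : ℝ) + d) := by
  have h1 := PdR_box14 d m K hK
  have h2 := PdR_box14 d m 0 (Nat.zero_le m)
  have h3 : box14 m 0 = 0 := by
    funext i
    simp [box14]
  rw [h3, Nat.cast_zero, mul_zero, sub_zero] at h2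
  rw [← h2, ← h] at h1
  refine mul_left_cancel₀ h0.ne' ?_
  linear_combination h1

end LT
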